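import Mathlib
import Pool.Agent.Helper463.BCPara

set_option autoImplicit false

namespace Pool.Agent.X164.RegConv

/-- The Banach lattice `L^2(G, ℂ)` of a discrete group `G` (Haar measure is counting measure). -/
abbrev L2 (G : Type) : Type := lp (fun _ : G => ℂ) 2

/-- A discrete group is amenable if it carries a finitely additive left invariant probability
measure defined on all of its subsets. -/
def Amenable (G : Type) [Group G] : Prop :=
  ∃ m : Set G → ℝ, (∀ A, 0 ≤ m A) ∧ m Set.univ = 1 ∧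
    (∀ A B, Disjoint A B → m (A ∪ B) = m A + m B) ∧
    ∀ (g : G) (A : Set G), m ((fun x => g * x) '' A) = m A

/-- A positive operator maps nonnegative functions to nonnegative functions. -/
def IsPositive {G : Type} (P : L2 G →L[ℂ] L2 G) : Prop :=
  ∀ f : L2 G, (∀ t, 0 ≤ (f t).re ∧ (f t).im = 0) → ∀ t, 0 ≤ (P f t).re ∧ (P f t).im = 0

/-- A regular operator is a complex linear combination of positive operators. -/
def IsRegular {G : Type} (T : L2 G →L[ℂ] L2 G) : Prop :=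
  T ∈ Submodule.span ℂ {P : L2 G →L[ℂ] L2 G | IsPositive P}

/-- `T ρ_s = ρ_s T` for every `s`, where `ρ_s f (t) = f (t s)`: if `h = ρ_s f` then
`T h = ρ_s (T f)`. -/
def CommutesRight {G : Type} [Group G] (T : L2 G →L[ℂ] L2 G) : Prop :=
  ∀ (s : G) (f h : L2 G), (∀ t, h t = f (t * s)) → ∀ t, T h t = T f (t * s)

noncomputable section

variable {G : Type} [Group G]

theorem memU (g : G) (f : L2 G) : Memℓp (fun t => (f : G → ℂ) (g⁻¹ * t)) 2 := by
  have h := lp.memℓp f
  rw [memℓp_gen_iff (by norm_num)] at h ⊢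
  exact (Equiv.mulLeft g⁻¹).summable_iff.mpr h

/-- left translation -/
def U (g : G) : L2 G →ₗᵢ[ℂ] L2 G where
  toFun f := ⟨fun t => f (g⁻¹ * t), memU g f⟩
  map_add' f h := by ext t; rfl
  map_smul' c f := by ext t; rfl
  norm_map' f := by
    have h2 : (0 : ℝ) < (2 : ENNReal).toReal := by norm_num
    have e1 := lp.norm_rpow_eq_tsum h2 f
    have e2 := lp.norm_rpow_eq_tsum h2 (⟨fun t => f (g⁻¹ * t), memU g f⟩ : L2 G)
    have e3 : (∑' t, ‖(⟨fun t => f (g⁻¹ * t), memU g f⟩ : L2 G) t‖ ^ (2 : ENNReal).toReal) =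
        ∑' t, ‖f t‖ ^ (2 : ENNReal).toReal :=
      (Equiv.mulLeft g⁻¹).tsum_eq (fun t => ‖f t‖ ^ (2 : ENNReal).toReal)
    have e4 := e2.trans (e3.trans e1.symm)
    exact (Real.rpow_left_inj (norm_nonneg _) (norm_nonneg _) h2.ne').mp e4

/-- left translation as a continuous linear map -/
def V (g : G) : L2 G →L[ℂ] L2 G := (U g).toContinuousLinearMap

theorem V_apply (g : G) (f : L2 G) (t : G) : V g f t = f (g⁻¹ * t) := rfl

theorem V_mul (g h : G) : V g * V h = V (g * h) := by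
  ext f t
  show f (h⁻¹ * (g⁻¹ * t)) = f ((g * h)⁻¹ * t)
  rw [mul_inv_rev, mul_assoc]

theorem V_norm (g : G) (f : L2 G) : ‖V g f‖ = ‖f‖ := (U g).norm_map f

theorem V_comm (g : G) : CommutesRight (V g) := by
  intro s f h hh t
  rw [V_apply, V_apply, hh, mul_assoc]

open Classical in
/-- the unit vectors -/
def dl (a : G) : L2 G := lp.single 2 a (1 : ℂ)

open Classical in
omit [Group G] in
theorem dl_apply (a t : G) : dl a t = if t = a then 1 else 0 := by
  unfold dl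
  rw [lp.single_apply]
  by_cases h : t = a
  · subst h; simp
  · simp [h]

open Classical in
theorem V_dl (g x : G) : V g (dl 1) x = if x = g then 1 else 0 := by
  rw [V_apply, dl_apply]
  by_cases h : x = g
  · subst h; simp
  · have : ¬ (g⁻¹ * x = 1) := by
      intro e; apply h; rw [inv_mul_eq_one] at e; exact e.symm
    simp [h, this]


open Classical in
omit [Group G] in
theorem pos_bound (P : L2 G →L[ℂ] L2 G) (hP : IsPositive P) (H : Finset G) :
    ∑ s ∈ H, ∑ t ∈ H, ‖P (dl t) s‖ ≤ ‖P‖ * (H.card : ℝ) := by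
  have h2 : (0 : ℝ) < (2 : ENNReal).toReal := by norm_num
  set I : L2 G := ∑ t ∈ H, dl t with hI
  have hre : ∀ t s, ‖P (dl t) s‖ = (P (dl t) s).re := by
    intro t s
    have h := hP (dl t) (by
      intro u
      rw [dl_apply]
      split_ifs <;> simp) s
    have e : P (dl t) s = (((P (dl t) s).re : ℝ) : ℂ) := by
      apply Complex.ext <;> simp [h.2]
    rw [e, Complex.norm_real, Complex.ofReal_re, Real.norm_of_nonneg h.1]
  have hPI : ∀ s, P I s = ∑ t ∈ H, P (dl t) s := by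
    intro s
    rw [hI, map_sum]
    rw [lp.coeFn_sum, Finset.sum_apply]
  have hnI : ‖I‖ ^ 2 = (H.card : ℝ) := by
    have h := lp.norm_sum_single h2 (fun _ : G => (1 : ℂ)) H
    have h' : ‖I‖ ^ (2 : ENNReal).toReal = ∑ i ∈ H, ‖(1 : ℂ)‖ ^ (2 : ENNReal).toReal := h
    simpa using h'
  have hPn : ∑ s ∈ H, ‖P I s‖ ^ 2 ≤ ‖P I‖ ^ 2 := by
    have h := lp.sum_rpow_le_norm_rpow h2 (P I) H
    simpa using h
  have hle : ∑ s ∈ H, ∑ t ∈ H, ‖P (dl t) s‖ ≤ ∑ s ∈ H, ‖P I s‖ := by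
    apply Finset.sum_le_sum
    intro s _
    rw [hPI]
    calc ∑ t ∈ H, ‖P (dl t) s‖ = ∑ t ∈ H, (P (dl t) s).re := Finset.sum_congr rfl fun t _ => hre t s
      _ = (∑ t ∈ H, P (dl t) s).re := by rw [Complex.re_sum]
      _ ≤ ‖∑ t ∈ H, P (dl t) s‖ := Complex.re_le_norm _
  refine hle.trans ?_
  have hsq : (∑ s ∈ H, ‖P I s‖) ^ 2 ≤ (‖P‖ * (H.card : ℝ)) ^ 2 := by
    have h1 : (∑ s ∈ H, ‖P I s‖) ^ 2 ≤ (H.card : ℝ) * ∑ s ∈ H, ‖P I s‖ ^ 2 :=
      sq_sum_le_card_mul_sum_sq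
    have h3 : ‖P I‖ ^ 2 ≤ ‖P‖ ^ 2 * (H.card : ℝ) := by
      have := P.le_opNorm I
      calc ‖P I‖ ^ 2 ≤ (‖P‖ * ‖I‖) ^ 2 := by gcongr
        _ = ‖P‖ ^ 2 * (H.card : ℝ) := by rw [mul_pow, hnI]
    calc (∑ s ∈ H, ‖P I s‖) ^ 2 ≤ (H.card : ℝ) * ∑ s ∈ H, ‖P I s‖ ^ 2 := h1
      _ ≤ (H.card : ℝ) * (‖P‖ ^ 2 * (H.card : ℝ)) := by
          apply mul_le_mul_of_nonneg_left (hPn.trans h3) (Nat.cast_nonneg _)
      _ = (‖P‖ * (H.card : ℝ)) ^ 2 := by ring
  exact abs_le_of_sq_le_sq' hsq (by positivity) |>.2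

open Classical in
omit [Group G] in
theorem reg_bound (T : L2 G →L[ℂ] L2 G) (hT : IsRegular T) :
    ∃ C : ℝ, ∀ H : Finset G, ∑ s ∈ H, ∑ t ∈ H, ‖T (dl t) s‖ ≤ C * (H.card : ℝ) := by
  unfold IsRegular at hT
  induction hT using Submodule.span_induction with
  | mem P hP => exact ⟨‖P‖, fun H => pos_bound P hP H⟩
  | zero => exact ⟨0, fun H => by simp⟩
  | add S T _ _ hS hT =>
    obtain ⟨C, hC⟩ := hS
    obtain ⟨D, hD⟩ := hT
    refine ⟨C + D, fun H => ?_⟩
    calc ∑ s ∈ H, ∑ t ∈ H, ‖(S + T) (dl t) s‖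
        ≤ ∑ s ∈ H, ∑ t ∈ H, (‖S (dl t) s‖ + ‖T (dl t) s‖) := by
          apply Finset.sum_le_sum; intro s _
          apply Finset.sum_le_sum; intro t _
          exact norm_add_le _ _
      _ = (∑ s ∈ H, ∑ t ∈ H, ‖S (dl t) s‖) + ∑ s ∈ H, ∑ t ∈ H, ‖T (dl t) s‖ := by
          simp only [Finset.sum_add_distrib]
      _ ≤ (C + D) * (H.card : ℝ) := by rw [add_mul]; exact add_le_add (hC H) (hD H)
  | smul a T _ hT =>
    obtain ⟨C, hC⟩ := hT
    refine ⟨‖a‖ * C, fun H => ?_⟩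
    calc ∑ s ∈ H, ∑ t ∈ H, ‖(a • T) (dl t) s‖
        = ‖a‖ * ∑ s ∈ H, ∑ t ∈ H, ‖T (dl t) s‖ := by
          simp only [Finset.mul_sum]
          apply Finset.sum_congr rfl; intro s _
          apply Finset.sum_congr rfl; intro t _
          change ‖a * (T (dl t) s)‖ = _
          rw [norm_mul]
      _ ≤ ‖a‖ * C * (H.card : ℝ) := by
          rw [mul_assoc]; exact mul_le_mul_of_nonneg_left (hC H) (norm_nonneg _)

/-- The operator `(1 + i U_g)/√2` for an involution `g`. -/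
def B (g : G) : L2 G →L[ℂ] L2 G := ((Real.sqrt 2 : ℝ) : ℂ)⁻¹ • (1 + Complex.I • V g)

theorem inner_V (g : G) (hg : g * g = 1) (f : L2 G) : (inner ℂ f (V g f)).im = 0 := by
  have hgi : g⁻¹ = g := inv_eq_of_mul_eq_one_right hg
  have hVV : V g (V g f) = f := by
    have := congrArg (fun A => A f) (V_mul g g)
    rw [hg] at this
    have h1 : V (1 : G) f = f := by
      ext t
      rw [V_apply]; simp
    rw [← h1]
    nth_rw 2 [← this]
    rw [h1]; rfl
  have h1 : inner ℂ (V g f) (V g (V g f)) = inner ℂ f (V g f) := (U g).inner_map_map f (V g f)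
  rw [hVV] at h1
  have h2 : inner ℂ (V g f) f = (starRingEnd ℂ) (inner ℂ f (V g f)) := (inner_conj_symm _ _).symm
  rw [h2] at h1
  have := congrArg Complex.im h1
  rw [Complex.conj_im] at this
  linarith

theorem B_norm (g : G) (hg : g * g = 1) : ‖B g‖ ≤ 1 := by
  refine ContinuousLinearMap.opNorm_le_bound _ zero_le_one fun f => ?_
  rw [one_mul]
  have hs2 : (Real.sqrt 2) ^ 2 = 2 := Real.sq_sqrt (by norm_num)
  have hspos : 0 < Real.sqrt 2 := Real.sqrt_pos.mpr (by norm_num)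
  have e : B g f = ((Real.sqrt 2 : ℝ) : ℂ)⁻¹ • (f + Complex.I • V g f) := rfl
  rw [e, norm_smul, norm_inv, Complex.norm_real, Real.norm_of_nonneg hspos.le]
  have h1 : ‖f + Complex.I • V g f‖ ^ 2 = 2 * ‖f‖ ^ 2 := by
    rw [@norm_add_sq ℂ, norm_smul, Complex.norm_I, one_mul, V_norm, inner_smul_right]
    have := inner_V g hg f
    have h3 : (RCLike.re (Complex.I * inner ℂ f (V g f)) : ℝ) = 0 := by
      show (Complex.I * inner ℂ f (V g f)).re = 0
      rw [Complex.mul_re, Complex.I_re, Complex.I_im, this]; ring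
    rw [h3]; ring
  have h2 : ‖f + Complex.I • V g f‖ = Real.sqrt 2 * ‖f‖ := by
    have : ‖f + Complex.I • V g f‖ ^ 2 = (Real.sqrt 2 * ‖f‖) ^ 2 := by rw [h1, mul_pow, hs2]
    exact (pow_left_inj₀ (norm_nonneg _) (by positivity) (by norm_num)).mp this
  rw [h2]
  rw [← mul_assoc, inv_mul_cancel₀ hspos.ne', one_mul]


/-- The operators `T_N = ∏_{k < N} B (g k)`. -/
def TN (g : ℕ → G) : ℕ → (L2 G →L[ℂ] L2 G)
  | 0 => 1
  | N + 1 => TN g N * B (g N)

theorem TN_norm (g : ℕ → G) (hg : ∀ k, g k * g k = 1) (N : ℕ) : ‖TN g N‖ ≤ 1 := by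
  induction N with
  | zero =>
    refine ContinuousLinearMap.opNorm_le_bound _ zero_le_one fun f => ?_
    rw [one_mul]; exact le_rfl
  | succ N ih =>
    calc ‖TN g N * B (g N)‖ ≤ ‖TN g N‖ * ‖B (g N)‖ := norm_mul_le _ _
      _ ≤ 1 * 1 := mul_le_mul ih (B_norm _ (hg N)) (norm_nonneg _) zero_le_one
      _ = 1 := one_mul 1

/-- the constant `1/√2` -/
def c0 : ℝ := (Real.sqrt 2)⁻¹

theorem TN_sum (g : ℕ → G) (w : Finset ℕ → G) (hw0 : w ∅ = 1)
    (hw : ∀ N (S : Finset ℕ), S ⊆ Finset.range N → w S * g N = w (insert N S)) (N : ℕ) :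
    TN g N = ((c0 : ℂ) ^ N) • ∑ S ∈ (Finset.range N).powerset, Complex.I ^ S.card • V (w S) := by
  induction N with
  | zero =>
    rw [Finset.range_zero, Finset.powerset_empty, Finset.sum_singleton, hw0]
    ext f t
    show f t = _
    simp [V_apply]
  | succ N ih =>
    rw [Finset.range_add_one, Finset.sum_powerset_insert Finset.notMem_range_self]
    show TN g N * B (g N) = _
    rw [ih]
    have hB : B (g N) = (c0 : ℂ) • (1 + Complex.I • V (g N)) := by
      unfold B c0; push_cast; rfl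
    rw [hB, smul_mul_smul_comm, ← pow_succ]
    congr 1
    rw [mul_add, mul_one, Finset.sum_mul]
    congr 1
    apply Finset.sum_congr rfl
    intro S hS
    rw [Finset.mem_powerset] at hS
    have hN : N ∉ S := fun h => Finset.notMem_range_self (hS h)
    rw [smul_mul_smul_comm, V_mul, hw N S hS, Finset.card_insert_of_notMem hN, pow_succ]

theorem comm_mul (A C : L2 G →L[ℂ] L2 G) (hA : CommutesRight A) (hC : CommutesRight C) :
    CommutesRight (A * C) := by
  intro s f h hh t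
  exact hA s (C f) (C h) (fun u => hC s f h hh u) t

theorem B_comm (g : G) : CommutesRight (B g) := by
  intro s f h hh t
  show ((Real.sqrt 2 : ℝ) : ℂ)⁻¹ * (h t + Complex.I * V g h t) =
    ((Real.sqrt 2 : ℝ) : ℂ)⁻¹ * (f (t * s) + Complex.I * V g f (t * s))
  rw [hh, V_comm g s f h hh t]

theorem TN_comm (g : ℕ → G) (N : ℕ) : CommutesRight (TN g N) := by
  induction N with
  | zero => intro s f h hh t; exact hh t
  | succ N ih => exact comm_mul _ _ ih (B_comm _)

/-- evaluation of an operator at a vector and a point -/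
def ev (f : L2 G) (t : G) : (L2 G →L[ℂ] L2 G) →ₗ[ℂ] ℂ where
  toFun A := A f t
  map_add' _ _ := rfl
  map_smul' _ _ := rfl

omit [Group G] in
theorem ev_cont (f : L2 G) (t : G) : Continuous (ev f t) := by
  have : ∀ A : L2 G →L[ℂ] L2 G, ‖ev f t A‖ ≤ ‖f‖ * ‖A‖ := by
    intro A
    calc ‖A f t‖ ≤ ‖A f‖ := lp.norm_apply_le_norm (by norm_num) (A f) t
      _ ≤ ‖A‖ * ‖f‖ := A.le_opNorm f
      _ = ‖f‖ * ‖A‖ := mul_comm _ _
  exact (LinearMap.mkContinuous (ev f t) ‖f‖ this).continuous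

/-- The operator `∑ (3/4)^N T_N`. -/
def TT (g : ℕ → G) : L2 G →L[ℂ] L2 G := ∑' N : ℕ, ((3 / 4 : ℂ) ^ N) • TN g N

theorem TT_summable (g : ℕ → G) (hg : ∀ k, g k * g k = 1) :
    Summable fun N : ℕ => ((3 / 4 : ℂ) ^ N) • TN g N := by
  apply Summable.of_norm
  apply Summable.of_nonneg_of_le (fun _ => norm_nonneg _) (g := fun N => ‖((3 / 4 : ℂ) ^ N) • TN g N‖)
    (f := fun N : ℕ => (3 / 4 : ℝ) ^ N)
  · intro N
    rw [norm_smul, norm_pow]
    have : ‖(3 / 4 : ℂ)‖ = 3 / 4 := by norm_num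
    rw [this]
    calc (3 / 4 : ℝ) ^ N * ‖TN g N‖ ≤ (3 / 4 : ℝ) ^ N * 1 :=
          mul_le_mul_of_nonneg_left (TN_norm g hg N) (by positivity)
      _ = _ := mul_one _
  · exact summable_geometric_of_lt_one (by norm_num) (by norm_num)

theorem TT_apply (g : ℕ → G) (hg : ∀ k, g k * g k = 1) (f : L2 G) (t : G) :
    HasSum (fun N : ℕ => ((3 / 4 : ℂ) ^ N) * TN g N f t) (TT g f t) := by
  have h := (TT_summable g hg).hasSum.map (ev f t) (ev_cont f t)
  exact h

theorem TT_comm (g : ℕ → G) (hg : ∀ k, g k * g k = 1) : CommutesRight (TT g) := by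
  intro s f h hh t
  have h1 := TT_apply g hg h t
  have h2 := TT_apply g hg f (t * s)
  have e : (fun N : ℕ => ((3 / 4 : ℂ) ^ N) * TN g N h t) =
      fun N : ℕ => ((3 / 4 : ℂ) ^ N) * TN g N f (t * s) := by
    funext N
    rw [TN_comm g N s f h hh t]
  rw [e] at h1
  exact h1.unique h2

open Classical in
theorem TN_coef (g : ℕ → G) (w : Finset ℕ → G) (hw0 : w ∅ = 1)
    (hw : ∀ N (S : Finset ℕ), S ⊆ Finset.range N → w S * g N = w (insert N S))
    (hinj : Function.Injective w) (N : ℕ) (R : Finset ℕ) :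
    TN g N (dl 1) (w R) = if R ⊆ Finset.range N then (c0 : ℂ) ^ N * Complex.I ^ R.card else 0 := by
  rw [TN_sum g w hw0 hw N]
  have e : (((c0 : ℂ) ^ N) • ∑ S ∈ (Finset.range N).powerset, Complex.I ^ S.card • V (w S))
      (dl 1) (w R) = (c0 : ℂ) ^ N * ∑ S ∈ (Finset.range N).powerset,
        Complex.I ^ S.card * (V (w S) (dl 1) (w R)) := by
    rw [smul_apply, sum_apply]
    rw [lp.coeFn_smul, Pi.smul_apply, lp.coeFn_sum, Finset.sum_apply]
    rfl
  rw [e]
  simp only [V_dl, hinj.eq_iff]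
  simp only [mul_ite, mul_one, mul_zero]
  rw [Finset.sum_ite_eq]
  simp only [Finset.mem_powerset]
  split_ifs <;> simp

open Classical in
theorem TT_lower (g : ℕ → G) (hg : ∀ k, g k * g k = 1) (w : Finset ℕ → G) (hw0 : w ∅ = 1)
    (hw : ∀ N (S : Finset ℕ), S ⊆ Finset.range N → w S * g N = w (insert N S))
    (hinj : Function.Injective w) (M : ℕ) (R : Finset ℕ) (hR : R ⊆ Finset.range M) :
    (3 / 4 : ℝ) ^ M * c0 ^ M ≤ ‖TT g (dl 1) (w R)‖ := by
  have h := TT_apply g hg (dl 1) (w R)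
  have hc : 0 ≤ c0 := by unfold c0; positivity
  -- multiply with the inverse phase
  have h2 : HasSum (fun N : ℕ => (if R ⊆ Finset.range N then (3 / 4 : ℝ) ^ N * c0 ^ N else 0 : ℝ))
      (((Complex.I ^ R.card)⁻¹ * TT g (dl 1) (w R)).re) := by
    have h3 := (h.mul_left ((Complex.I ^ R.card)⁻¹)).mapL Complex.reCLM
    have e : (fun N : ℕ => Complex.reCLM ((Complex.I ^ R.card)⁻¹ *
        ((3 / 4 : ℂ) ^ N * TN g N (dl 1) (w R)))) =
        fun N : ℕ => (if R ⊆ Finset.range N then (3 / 4 : ℝ) ^ N * c0 ^ N else 0 : ℝ) := by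
      funext N
      rw [TN_coef g w hw0 hw hinj N R]
      split_ifs with hs
      · have hI : (Complex.I ^ R.card) ≠ 0 := pow_ne_zero _ Complex.I_ne_zero
        have : (Complex.I ^ R.card)⁻¹ * ((3 / 4 : ℂ) ^ N * ((c0 : ℂ) ^ N * Complex.I ^ R.card)) =
            (((3 / 4 : ℝ) ^ N * c0 ^ N : ℝ) : ℂ) := by
          push_cast
          field_simp
        rw [this]; exact Complex.ofReal_re _
      · simp
    exact (congrArg (fun q => HasSum q _) e).mp h3
  have h4 : (3 / 4 : ℝ) ^ M * c0 ^ M ≤ ((Complex.I ^ R.card)⁻¹ * TT g (dl 1) (w R)).re := by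
    have := le_hasSum h2 M (fun j _ => by split_ifs <;> positivity)
    simpa [hR] using this
  calc (3 / 4 : ℝ) ^ M * c0 ^ M ≤ ((Complex.I ^ R.card)⁻¹ * TT g (dl 1) (w R)).re := h4
    _ ≤ ‖(Complex.I ^ R.card)⁻¹ * TT g (dl 1) (w R)‖ := Complex.re_le_norm _
    _ = ‖TT g (dl 1) (w R)‖ := by
      rw [norm_mul, norm_inv, norm_pow, Complex.norm_I, one_pow, inv_one, one_mul]

open Classical in
theorem TT_shift (g : ℕ → G) (hg : ∀ k, g k * g k = 1) (s t : G) :
    TT g (dl t) s = TT g (dl 1) (s * t⁻¹) := by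
  apply TT_comm g hg t⁻¹ (dl 1) (dl t)
  intro u
  rw [dl_apply, dl_apply]
  congr 1
  rw [mul_inv_eq_one]

open Classical in
theorem not_regular (g : ℕ → G) (hg : ∀ k, g k * g k = 1) (w : Finset ℕ → G) (hw0 : w ∅ = 1)
    (hw : ∀ N (S : Finset ℕ), S ⊆ Finset.range N → w S * g N = w (insert N S))
    (hinj : Function.Injective w)
    (hdiv : ∀ N (S R : Finset ℕ), S ⊆ Finset.range N → R ⊆ Finset.range N →
      ∃ Q : Finset ℕ, Q ⊆ Finset.range N ∧ w S * (w R)⁻¹ = w Q) : ¬ IsRegular (TT g) := by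
  intro hreg
  obtain ⟨C, hC⟩ := reg_bound (TT g) hreg
  have hbound : ∀ M : ℕ, (3 / 4 * Real.sqrt 2) ^ M ≤ C := by
    intro M
    set H : Finset G := (Finset.range M).powerset.image w with hH
    have hcard : (H.card : ℝ) = 2 ^ M := by
      rw [hH, Finset.card_image_of_injective _ hinj, Finset.card_powerset, Finset.card_range]
      push_cast; rfl
    have hlow : ∀ s ∈ H, ∀ t ∈ H, (3 / 4 : ℝ) ^ M * c0 ^ M ≤ ‖TT g (dl t) s‖ := by
      intro s hs t ht
      rw [hH, Finset.mem_image] at hs ht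
      obtain ⟨S, hS, rfl⟩ := hs
      obtain ⟨R, hR, rfl⟩ := ht
      rw [Finset.mem_powerset] at hS hR
      rw [TT_shift g hg]
      obtain ⟨Q, hQ, e⟩ := hdiv M S R hS hR
      rw [e]
      exact TT_lower g hg w hw0 hw hinj M Q hQ
    have h1 : (H.card : ℝ) * ((H.card : ℝ) * ((3 / 4 : ℝ) ^ M * c0 ^ M)) ≤ C * (H.card : ℝ) := by
      refine le_trans ?_ (hC H)
      have := Finset.card_nsmul_le_sum H (fun s => ∑ t ∈ H, ‖TT g (dl t) s‖)
        ((H.card : ℝ) * ((3 / 4 : ℝ) ^ M * c0 ^ M)) (by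
          intro s hs
          have := Finset.card_nsmul_le_sum H (fun t => ‖TT g (dl t) s‖)
            ((3 / 4 : ℝ) ^ M * c0 ^ M) (fun t ht => hlow s hs t ht)
          rwa [nsmul_eq_mul] at this)
      rwa [nsmul_eq_mul] at this
    rw [hcard] at h1
    have hp : (0 : ℝ) < 2 ^ M := by positivity
    have h2 : (2 : ℝ) ^ M * ((3 / 4 : ℝ) ^ M * c0 ^ M) ≤ C := by
      have : (2 : ℝ) ^ M * (2 ^ M * ((3 / 4 : ℝ) ^ M * c0 ^ M)) ≤ 2 ^ M * C := by
        rw [mul_comm (2 ^ M) C]; exact h1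
      exact le_of_mul_le_mul_left this hp
    have h3 : (3 / 4 * Real.sqrt 2) ^ M = (2 : ℝ) ^ M * ((3 / 4 : ℝ) ^ M * c0 ^ M) := by
      rw [← mul_pow, ← mul_pow]
      congr 1
      unfold c0
      have hs : Real.sqrt 2 ≠ 0 := (Real.sqrt_pos.mpr (by norm_num)).ne'
      have hs2 : (Real.sqrt 2) ^ 2 = 2 := Real.sq_sqrt (by norm_num)
      field_simp
      rw [hs2]
    rw [h3]; exact h2
  have h1 : (1 : ℝ) < 3 / 4 * Real.sqrt 2 := by
    have : (4 / 3 : ℝ) < Real.sqrt 2 := by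
      rw [Real.lt_sqrt (by norm_num)]; norm_num
    linarith
  obtain ⟨M, hM⟩ := pow_unbounded_of_one_lt C h1
  exact absurd (hbound M) (not_le.mpr hM)

/-- The group `F_2 × (ℤ/2)^ℕ`. -/
abbrev Gp : Type := FreeGroup Bool × Multiplicative (ℕ → ZMod 2)

/-- The commuting involutions. -/
def gk (k : ℕ) : Gp := (1, Multiplicative.ofAdd (Pi.single k 1))

/-- The elements of the subgroup generated by the involutions. -/
def ww (S : Finset ℕ) : Gp := (1, Multiplicative.ofAdd (fun k => if k ∈ S then 1 else 0))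

theorem not_amenable : ¬ Amenable Gp := by
  rintro ⟨m, h0, h1, hadd, hinv⟩
  refine Pool.Agent.Helper463.BC.paradox (MonoidHom.fst (FreeGroup Bool)
    (Multiplicative (ℕ → ZMod 2))) (fun i => (FreeGroup.of i, 1)) (fun i => rfl) m h1 h0 hadd ?_
  intro i S
  rw [hinv, sub_self, abs_zero]
  norm_num

theorem main : ¬ Amenable Gp ∧ ∃ T : L2 Gp →L[ℂ] L2 Gp, CommutesRight T ∧ ¬ IsRegular T := by
  have hg : ∀ k, gk k * gk k = 1 := by
    intro k
    unfold gk
    apply Prod.ext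
    · simp
    · show Multiplicative.ofAdd (Pi.single k 1) * Multiplicative.ofAdd (Pi.single k 1) = 1
      rw [← ofAdd_add, ← ofAdd_zero]
      congr 1
      funext j
      show (Pi.single k (1 : ZMod 2) : ℕ → ZMod 2) j + (Pi.single k (1 : ZMod 2) : ℕ → ZMod 2) j = 0
      exact CharTwo.add_self_eq_zero _
  refine ⟨not_amenable, TT gk, TT_comm gk hg, ?_⟩
  apply not_regular gk hg ww
  · unfold ww
    apply Prod.ext
    · rfl
    · show Multiplicative.ofAdd _ = 1
      rw [← ofAdd_zero]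
      congr 1
  · intro N S hS
    have hN : N ∉ S := fun h => Finset.notMem_range_self (hS h)
    unfold ww gk
    apply Prod.ext
    · simp
    · show Multiplicative.ofAdd _ * Multiplicative.ofAdd _ = Multiplicative.ofAdd _
      rw [← ofAdd_add]
      congr 1
      funext j
      show (if j ∈ S then (1 : ZMod 2) else 0) + (Pi.single N (1 : ZMod 2) : ℕ → ZMod 2) j =
        if j ∈ insert N S then 1 else 0
      by_cases hj : j = N
      · subst hj; simp [hN]
      · simp [hj]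
  · intro S R h
    have h2 := congrArg Prod.snd h
    have h3 : (fun k => if k ∈ S then (1 : ZMod 2) else 0) = fun k => if k ∈ R then 1 else 0 :=
      Multiplicative.ofAdd.injective h2
    ext k
    have h4 := congrFun h3 k
    by_cases h5 : k ∈ S <;> by_cases h6 : k ∈ R <;> simp_all
  · intro N S R hS hR
    refine ⟨symmDiff S R, ?_, ?_⟩
    · intro k hk
      rw [Finset.mem_symmDiff] at hk
      rcases hk with h | h
      · exact hS h.1
      · exact hR h.1
    · unfold ww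
      apply Prod.ext
      · simp
      · show Multiplicative.ofAdd _ * (Multiplicative.ofAdd _)⁻¹ = Multiplicative.ofAdd _
        rw [← ofAdd_neg, ← ofAdd_add]
        congr 1
        funext k
        show (if k ∈ S then (1 : ZMod 2) else 0) + -(if k ∈ R then (1 : ZMod 2) else 0) =
          if k ∈ symmDiff S R then 1 else 0
        by_cases h5 : k ∈ S <;> by_cases h6 : k ∈ R <;>
          simp [h5, h6, Finset.mem_symmDiff] <;> decide

end

end Pool.Agent.X164.RegConv
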