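import Pool.Agent.X164.FlatBox2

set_option autoImplicit false

namespace Pool.Agent.X164.FlatBox3

open Set MeasureTheory Metric Module Filter
open scoped MeasureTheory Topology Pointwise
open Pool.Agent.X164.Steiner Pool.Agent.X164.Sweep Pool.Agent.X164.FlatBox
open Pool.Agent.X164.FlatBox2

lemma coord_abs (z : E 3) (i : Fin 3) : |z i| ≤ ‖z‖ := by
  rw [← Real.norm_eq_abs]; exact PiLp.norm_apply_le z i

lemma par_upper {h t : ℝ} (hh : 0 < h) (ht : 0 < t) :
    vol (K h + closedBall 0 t) ≤ (1 + 2 * t) ^ 2 * (h + 2 * t) := by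
  have hsub : K h + closedBall 0 t ⊆ box (fun _ => -t) (fun i => side h i + t) := by
    rintro _ ⟨x, hx, z, hz, rfl⟩ i
    have hzn : ‖z‖ ≤ t := by simpa using hz
    have h1 := hx i
    have h2 := abs_le.mp ((coord_abs z i).trans hzn)
    simp only [Pi.zero_apply] at h1
    change -t ≤ x i + z i ∧ x i + z i ≤ side h i + t
    constructor <;> linarith
  have h1 := vol_mono hsub (box_compact _ _).isBounded
  rw [box_vol (fun _ => -t) (fun i => side h i + t)
    fun i => by have := side_pos hh i; linarith] at h1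
  simp [Fin.prod_univ_three, side] at h1
  have h2 : (1 + t + t) * (1 + t + t) * (h + t + t) = (1 + 2 * t) ^ 2 * (h + 2 * t) := by ring
  linarith

/-- the box extended by `t` in both directions of coordinate `i` -/
noncomputable def ext (h t : ℝ) (i : Fin 3) : Set (E 3) :=
  box (Pi.single i (-t)) (side h + Pi.single i t)

lemma ext_sub {h t : ℝ} (hh : 0 < h) (ht : 0 < t) (i : Fin 3) :
    ext h t i ⊆ K h + closedBall 0 t := by
  intro x hx
  have hxi := hx i
  simp only [Pi.single_eq_same, Pi.add_apply] at hxi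
  have hs := side_pos hh i
  set c := max 0 (min (x i) (side h i)) with hc
  have hc0 : 0 ≤ c := le_max_left _ _
  have hc1 : c ≤ side h i := max_le hs.le (min_le_right _ _)
  have hcx : |x i - c| ≤ t := by
    rw [hc]
    rcases le_total (x i) (side h i) with h1 | h1
    · rw [min_eq_left h1]
      rcases le_total 0 (x i) with h2 | h2
      · rw [max_eq_right h2, sub_self, abs_zero]; exact ht.le
      · rw [max_eq_left h2, sub_zero, abs_le]; constructor <;> linarith
    · rw [min_eq_right h1, max_eq_right hs.le, abs_le]; constructor <;> linarith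
  refine ⟨x - (x i - c) • EuclideanSpace.single i 1, ?_, (x i - c) • EuclideanSpace.single i 1,
    ?_, by simp⟩
  · intro k
    simp only [PiLp.sub_apply, PiLp.smul_apply, smul_eq_mul, PiLp.single_apply, Pi.zero_apply]
    by_cases hk : k = i
    · subst hk; simp; exact ⟨hc0, hc1⟩
    · have h1 := hx k
      simp [hk] at h1
      simp [hk]
      exact h1
  · rw [mem_closedBall_zero_iff, norm_smul]
    simpa using hcx

lemma ext_vol {h t : ℝ} (hh : 0 < h) (ht : 0 < t) (i : Fin 3) :
    vol (ext h t i) = ∏ k, (side h k + 2 * (Pi.single i t : Fin 3 → ℝ) k) := by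
  unfold ext
  rw [box_vol]
  · apply Finset.prod_congr rfl
    intro k _
    by_cases hk : k = i
    · subst hk; simp; ring
    · simp [hk]
  · intro k
    by_cases hk : k = i
    · subst hk; simp; have := side_pos hh k; linarith
    · simp [hk]; exact (side_pos hh k).le

lemma ext_inter {h t : ℝ} (ht : 0 < t) {i j : Fin 3} (hij : i ≠ j) :
    ext h t i ∩ ext h t j = K h := by
  apply Subset.antisymm
  · rintro x ⟨h1, h2⟩ k
    have g1 := h1 k
    have g2 := h2 k
    by_cases hk : k = i
    · subst hk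
      simp [hij] at g2
      exact g2
    · simp [hk] at g1
      exact g1
  · intro x hx
    constructor
    · intro k
      have g := hx k
      by_cases hk : k = i
      · subst hk; simp at g ⊢; constructor <;> linarith
      · simp [hk] at g ⊢; exact g
    · intro k
      have g := hx k
      by_cases hk : k = j
      · subst hk; simp at g ⊢; constructor <;> linarith
      · simp [hk] at g ⊢; exact g

lemma vol_union {A B : Set (E 3)} (hA : IsCompact A) (hB : IsCompact B) :
    vol (A ∪ B) + vol (A ∩ B) = vol A + vol B := by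
  unfold vol
  rw [← ENNReal.toReal_add (hA.union hB).measure_lt_top.ne
    (hA.inter_right hB.isClosed).measure_lt_top.ne,
    measure_union_add_inter _ hB.measurableSet,
    ENNReal.toReal_add hA.measure_lt_top.ne hB.measure_lt_top.ne]

lemma par_lower {h t : ℝ} (hh : 0 < h) (ht : 0 < t) :
    h + 2 * t * (1 + 2 * h) ≤ vol (K h + closedBall 0 t) := by
  have c : ∀ i, IsCompact (ext h t i) := fun i => box_compact _ _
  have hsub : (ext h t 0 ∪ ext h t 1) ∪ ext h t 2 ⊆ K h + closedBall 0 t :=
    union_subset (union_subset (ext_sub hh ht 0) (ext_sub hh ht 1)) (ext_sub hh ht 2)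
  have h1 := vol_mono hsub ((K_compact h).add (isCompact_closedBall _ _)).isBounded
  have e1 := vol_union (c 0) (c 1)
  have e2 := vol_union ((c 0).union (c 1)) (c 2)
  have i1 : ext h t 0 ∩ ext h t 1 = K h := ext_inter ht (by decide)
  have i2 : (ext h t 0 ∪ ext h t 1) ∩ ext h t 2 = K h := by
    rw [union_inter_distrib_right, ext_inter ht (by decide), ext_inter ht (by decide), union_self]
  rw [i1, K_vol hh] at e1
  rw [i2, K_vol hh] at e2
  have v0 : vol (ext h t 0) = (1 + 2 * t) * h := by
    rw [ext_vol hh ht]; simp [Fin.prod_univ_three, side]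
  have v1 : vol (ext h t 1) = (1 + 2 * t) * h := by
    rw [ext_vol hh ht]; simp [Fin.prod_univ_three, side]
  have v2 : vol (ext h t 2) = h + 2 * t := by
    rw [ext_vol hh ht]; simp [Fin.prod_univ_three, side]
  rw [v0, v1] at e1
  rw [v2] at e2
  linarith

/-- the Steiner limit of the flat box -/
lemma steiner_limit {h : ℝ} (hh : 0 < h) :
    Tendsto (fun t : ℝ => (vol (K h + closedBall 0 t) - vol (K h)) / (2 * t))
      (𝓝[>] 0) (𝓝 (1 + 2 * h)) := by
  have hup : Tendsto (fun t : ℝ => h * (2 + 2 * t) + (1 + 2 * t) ^ 2) (𝓝[>] 0)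
      (𝓝 (h * (2 + 2 * 0) + (1 + 2 * 0) ^ 2)) :=
    ((by fun_prop : Continuous fun t : ℝ => h * (2 + 2 * t) + (1 + 2 * t) ^ 2).tendsto 0).mono_left
      nhdsWithin_le_nhds
  have he : h * (2 + 2 * 0) + (1 + 2 * 0) ^ 2 = 1 + 2 * h := by ring
  rw [he] at hup
  refine tendsto_of_tendsto_of_tendsto_of_le_of_le' tendsto_const_nhds hup ?_ ?_
  · filter_upwards [self_mem_nhdsWithin] with t ht
    have ht' : 0 < t := ht
    rw [le_div_iff₀ (by positivity), K_vol hh]
    have := par_lower hh ht'
    linarith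
  · filter_upwards [self_mem_nhdsWithin] with t ht
    have ht' : 0 < t := ht
    rw [div_le_iff₀ (by positivity), K_vol hh]
    have := par_upper hh ht'
    nlinarith

/-- an orthonormal frame starting with a given unit vector -/
lemma frame {u : E 3} (hu : ‖u‖ = 1) : ∃ v w : E 3, ‖v‖ = 1 ∧ ‖w‖ = 1 ∧ inner ℝ u v = 0 ∧
    inner ℝ u w = 0 ∧ ∀ z : E 3, z = inner ℝ u z • u + (inner ℝ v z • v + inner ℝ w z • w) := by
  have hu0 : u ≠ 0 := by intro h; rw [h, norm_zero] at hu; exact zero_ne_one hu
  have hfin : finrank ℝ (ℝ ∙ u)ᗮ = 2 := by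
    have h1 := (ℝ ∙ u).finrank_add_finrank_orthogonal
    rw [finrank_span_singleton hu0, finrank_euclideanSpace, Fintype.card_fin] at h1
    omega
  let b : OrthonormalBasis (Fin 2) ℝ (ℝ ∙ u)ᗮ := (stdOrthonormalBasis ℝ (ℝ ∙ u)ᗮ).reindex
    (finCongr hfin)
  refine ⟨b 0, b 1, ?_, ?_, mem_perp.mp (b 0).2, mem_perp.mp (b 1).2, fun z => ?_⟩
  · exact b.orthonormal.1 0
  · exact b.orthonormal.1 1
  · set p : (ℝ ∙ u)ᗮ := ⟨(ℝ ∙ u)ᗮ.starProjection z, Submodule.starProjection_apply_mem _ _⟩ with hp
    have h1 := b.sum_repr' p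
    rw [Fin.sum_univ_two] at h1
    have h2 : ∀ q : (ℝ ∙ u)ᗮ, inner ℝ q p = inner ℝ (q : E 3) z := by
      intro q
      have h3 : inner ℝ q p = inner ℝ (q : E 3) ((ℝ ∙ u)ᗮ.starProjection z) := rfl
      rw [h3, ← Submodule.inner_starProjection_left_eq_right,
        Submodule.starProjection_eq_self_iff.mpr q.2]
    rw [h2, h2] at h1
    have h4 : ((ℝ ∙ u)ᗮ.starProjection z) = inner ℝ (b 0 : E 3) z • (b 0 : E 3) +
        inner ℝ (b 1 : E 3) z • (b 1 : E 3) := by
      have h5 := congrArg Subtype.val h1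
      exact h5.symm
    rw [← h4, add_comm]
    exact (dec u hu z).symm

/-- the projection written as in the frozen statement -/
lemma proj_formula {u : E 3} (hu : ‖u‖ = 1) :
    (fun x : E 3 => x - (inner ℝ u x) • u) = (ℝ ∙ u)ᗮ.starProjection := by
  funext x
  rw [sub_eq_iff_eq_add]
  exact (dec u hu x).symm

lemma add_segment (u : E 3) (X : Set (E 3)) : X + segment ℝ (0 : E 3) u = swp u 0 1 X := by
  ext z
  rw [Set.mem_add]
  constructor
  · rintro ⟨x, hx, y, ⟨a, b, ha, hb, hab, rfl⟩, rfl⟩
    exact ⟨x, hx, b, ⟨hb, by linarith⟩, by simp⟩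
  · rintro ⟨x, hx, s, hs, rfl⟩
    exact ⟨x, hx, s • u, ⟨1 - s, s, by linarith [hs.2], hs.1, by ring, by simp⟩, rfl⟩

end Pool.Agent.X164.FlatBox3
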