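import Pool.Agent.X164.SupportBody

set_option autoImplicit false

namespace Pool.Agent.X164.CompleteSym

open Set Metric MeasureTheory
open Pool.Agent.X164.SupportBody

/-- The symmetry group of `A`: all isometries of the space that map `A` onto itself. -/
def symGroup {m : ℕ} (A : Set (E m)) : Subgroup (E m ≃ᵢ E m) where
  carrier := {g | g '' A = A}
  mul_mem' := by
    intro f g hf hg
    simp only [mem_setOf_eq] at hf hg ⊢
    rw [IsometryEquiv.coe_mul, image_comp, hg, hf]
  one_mem' := by simp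
  inv_mem' := by
    intro g hg
    simp only [mem_setOf_eq] at hg ⊢
    conv_lhs => rw [← hg]
    rw [← image_comp]
    have : (g⁻¹ : E m ≃ᵢ E m) ∘ g = id := by
      funext x; exact g.symm_apply_apply x
    rw [this, image_id]

/-- An ellipsoid: the image of the closed unit ball under an invertible affine map. -/
def IsEllipsoid {m : ℕ} (A : Set (E m)) : Prop :=
  ∃ (T : E m ≃ₗ[ℝ] E m) (c : E m), A = (fun x => T x + c) '' closedBall 0 1

/-- A Euclidean ball. -/
def IsBall {m : ℕ} (A : Set (E m)) : Prop := ∃ (c : E m) (r : ℝ), 0 < r ∧ A = closedBall c r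

/-- A group of isometries is complete if every ellipsoid whose symmetry group contains it is
a Euclidean ball. -/
def IsCompleteGroup {m : ℕ} (G : Subgroup (E m ≃ᵢ E m)) : Prop :=
  ∀ A : Set (E m), IsEllipsoid A → G ≤ symGroup A → IsBall A

/-- The centroid of `A`. -/
noncomputable def centroid {m : ℕ} (A : Set (E m)) : E m :=
  (volume A).toReal⁻¹ • ∫ x in A, x

/-- `A` is completely symmetric: its centroid is the origin and its symmetry group is complete. -/
def IsCompletelySymmetric {m : ℕ} (A : Set (E m)) : Prop :=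
  centroid A = 0 ∧ IsCompleteGroup (symGroup A)

lemma centroid_zero_of {m : ℕ} (A : Set (E m)) (R : E m ≃ₗᵢ[ℝ] E m) (hR : R '' A = A)
    (hfix : ∀ v, R v = v → v = 0) : centroid A = 0 := by
  have h1 : R (∫ x in A, x) = ∫ x in A, x := by
    have h2 : ∫ x in R '' A, x = ∫ x in A, R x := by
      have hmp : MeasurePreserving R volume volume := R.measurePreserving
      exact hmp.setIntegral_image_emb R.toHomeomorph.measurableEmbedding (fun x => x) A
    have h3 : ∫ x in A, R x = R (∫ x in A, x) := by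
      have := (R.toContinuousLinearEquiv).integral_comp_comm (μ := volume.restrict A) (fun x => x)
      simpa using this
    rw [← h3, ← h2, hR]
  unfold centroid
  rw [hfix _ h1, smul_zero]

/-- The only quadratic forms `‖T y‖²` invariant under `R` are the multiples of `‖y‖²`. -/
def Rigid {m : ℕ} (R : E m ≃ₗᵢ[ℝ] E m) : Prop :=
  ∀ T : E m →ₗ[ℝ] E m, (∀ y, ‖T (R y)‖ = ‖T y‖) → ∃ a : ℝ, ∀ y, ‖T y‖ ^ 2 = a * ‖y‖ ^ 2

lemma ellipsoid_width {m : ℕ} (T : E m ≃ₗ[ℝ] E m) (c : E m) (y : E m) :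
    (∃ x ∈ (fun x => T x + c) '' closedBall 0 1, ∃ x' ∈ (fun x => T x + c) '' closedBall 0 1,
      inner ℝ (x - x') y = 2 * ‖LinearMap.adjoint (T : E m →ₗ[ℝ] E m) y‖) ∧
    (∀ x ∈ (fun x => T x + c) '' closedBall 0 1, ∀ x' ∈ (fun x => T x + c) '' closedBall 0 1,
      inner ℝ (x - x') y ≤ 2 * ‖LinearMap.adjoint (T : E m →ₗ[ℝ] E m) y‖) := by
  set S := LinearMap.adjoint (T : E m →ₗ[ℝ] E m) with hS
  have hadj : ∀ u v : E m, inner ℝ (T u) v = inner ℝ u (S v) := fun u v =>
    (LinearMap.adjoint_inner_right (T : E m →ₗ[ℝ] E m) u v).symm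
  constructor
  · set w := ‖S y‖⁻¹ • S y with hw
    have hwn : ‖w‖ ≤ 1 := by
      rw [hw, norm_smul, norm_inv, norm_norm]
      by_cases h0 : ‖S y‖ = 0
      · rw [h0]; simp
      · rw [inv_mul_cancel₀ h0]
    refine ⟨T w + c, ⟨w, by simpa using hwn, rfl⟩, T (-w) + c, ⟨-w, by simpa using hwn, rfl⟩, ?_⟩
    have h1 : (T w + c) - (T (-w) + c) = (2 : ℝ) • T w := by
      rw [map_neg, two_smul]; abel
    rw [h1, inner_smul_left, hadj, hw, inner_smul_left, real_inner_self_eq_norm_sq]
    simp only [conj_trivial]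
    by_cases h0 : ‖S y‖ = 0
    · rw [h0]; simp
    · field_simp
  · rintro _ ⟨u, hu, rfl⟩ _ ⟨v, hv, rfl⟩
    have h1 : (T u + c) - (T v + c) = T (u - v) := by rw [map_sub]; abel
    simp only [h1]
    rw [hadj]
    have hu' : ‖u‖ ≤ 1 := by simpa using hu
    have hv' : ‖v‖ ≤ 1 := by simpa using hv
    calc inner ℝ (u - v) (S y) ≤ ‖u - v‖ * ‖S y‖ := real_inner_le_norm _ _
      _ ≤ 2 * ‖S y‖ := by
        gcongr
        calc ‖u - v‖ ≤ ‖u‖ + ‖v‖ := norm_sub_le _ _
          _ ≤ 2 := by linarith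

lemma adjoint_inv {m : ℕ} (T : E m ≃ₗ[ℝ] E m) (c : E m) (R : E m ≃ₗᵢ[ℝ] E m)
    (hR : R '' ((fun x => T x + c) '' closedBall 0 1) = (fun x => T x + c) '' closedBall 0 1)
    (y : E m) : ‖LinearMap.adjoint (T : E m →ₗ[ℝ] E m) (R y)‖ =
      ‖LinearMap.adjoint (T : E m →ₗ[ℝ] E m) y‖ := by
  set A := (fun x => T x + c) '' closedBall 0 1 with hA
  apply le_antisymm
  · obtain ⟨x, hx, x', hx', h1⟩ := (ellipsoid_width T c (R y)).1
    rw [← hA, ← hR] at hx hx'
    obtain ⟨u, hu, rfl⟩ := hx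
    obtain ⟨v, hv, rfl⟩ := hx'
    rw [← map_sub, R.inner_map_map] at h1
    have h2 := (ellipsoid_width T c y).2 u hu v hv
    linarith
  · obtain ⟨x, hx, x', hx', h1⟩ := (ellipsoid_width T c y).1
    have hx1 : R x ∈ A := by rw [← hR]; exact ⟨x, hx, rfl⟩
    have hx2 : R x' ∈ A := by rw [← hR]; exact ⟨x', hx', rfl⟩
    have h2 := (ellipsoid_width T c (R y)).2 _ hx1 _ hx2
    rw [← map_sub, R.inner_map_map] at h2
    linarith

lemma isBall_of_rigid {m : ℕ} (hm : 0 < m) (R : E m ≃ₗᵢ[ℝ] E m) (hrig : Rigid R) (A : Set (E m))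
    (hA : IsEllipsoid A) (hRA : R '' A = A) : IsBall A := by
  obtain ⟨T, c, rfl⟩ := hA
  set S := LinearMap.adjoint (T : E m →ₗ[ℝ] E m) with hS
  have hadj : ∀ u v : E m, inner ℝ (T u) v = inner ℝ u (S v) := fun u v =>
    (LinearMap.adjoint_inner_right (T : E m →ₗ[ℝ] E m) u v).symm
  obtain ⟨a, ha⟩ := hrig S (adjoint_inv T c R hRA)
  -- T T* = a
  have hTS : ∀ y, T (S y) = a • y := by
    have hsym : (((T : E m →ₗ[ℝ] E m) ∘ₗ S) - a • LinearMap.id).IsSymmetric := by
      intro u v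
      simp only [LinearMap.sub_apply, LinearMap.comp_apply, LinearMap.smul_apply,
        LinearMap.id_apply, inner_sub_left, inner_sub_right, inner_smul_left, inner_smul_right,
        conj_trivial]
      have h1 : inner ℝ ((T : E m →ₗ[ℝ] E m) (S u)) v = inner ℝ (S u) (S v) := hadj _ _
      have h2 : inner ℝ u ((T : E m →ₗ[ℝ] E m) (S v)) = inner ℝ (S u) (S v) := by
        rw [real_inner_comm]
        change inner ℝ (T (S v)) u = _
        rw [hadj, real_inner_comm]
      rw [h1, h2]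
    have h0 := hsym.inner_map_self_eq_zero.mp (by
      intro x
      simp only [LinearMap.sub_apply, LinearMap.comp_apply, LinearMap.smul_apply,
        LinearMap.id_apply, inner_sub_left, inner_smul_left, conj_trivial]
      have h1 : inner ℝ ((T : E m →ₗ[ℝ] E m) (S x)) x = inner ℝ (S x) (S x) := hadj _ _
      rw [h1, real_inner_self_eq_norm_sq, real_inner_self_eq_norm_sq, ha]
      ring)
    intro y
    have := LinearMap.congr_fun h0 y
    simp only [LinearMap.sub_apply, LinearMap.comp_apply, LinearMap.smul_apply,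
        LinearMap.id_apply, LinearMap.zero_apply] at this
    exact sub_eq_zero.mp this
  -- a > 0
  have hSinj : ∀ y, S y = 0 → y = 0 := by
    intro y hy
    have h1 : inner ℝ (T (T.symm y)) y = 0 := by rw [hadj, hy, inner_zero_right]
    rw [LinearEquiv.apply_symm_apply] at h1
    exact inner_self_eq_zero.mp h1
  have ha0 : 0 < a := by
    let e : E m := EuclideanSpace.single ⟨0, hm⟩ (1 : ℝ)
    have he : ‖e‖ = 1 := by simp [e]
    have h1 := ha e
    rw [he] at h1
    have h2 : S e ≠ 0 := fun h => by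
      have := hSinj e h
      rw [this, norm_zero] at he
      exact zero_ne_one he
    have h3 : 0 < ‖S e‖ := norm_pos_iff.mpr h2
    nlinarith [pow_pos h3 2]
  have hinv : ∀ x, T.symm x = a⁻¹ • S x := by
    intro x
    apply T.injective
    rw [LinearEquiv.apply_symm_apply, map_smul, hTS, smul_smul, inv_mul_cancel₀ ha0.ne', one_smul]
  refine ⟨c, Real.sqrt a, Real.sqrt_pos.mpr ha0, ?_⟩
  ext x
  have hx : x ∈ (fun x => T x + c) '' closedBall 0 1 ↔ ‖T.symm (x - c)‖ ≤ 1 := by
    constructor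
    · rintro ⟨u, hu, rfl⟩
      simpa using hu
    · intro h
      exact ⟨T.symm (x - c), by simpa using h, by simp⟩
  rw [hx, mem_closedBall, dist_eq_norm, hinv, norm_smul, Real.norm_eq_abs,
    abs_of_pos (inv_pos.mpr ha0)]
  have hsq := ha (x - c)
  have h1 : ‖S (x - c)‖ = Real.sqrt a * ‖x - c‖ := by
    have h2 : ‖S (x - c)‖ = Real.sqrt (‖S (x - c)‖ ^ 2) := by
      rw [Real.sqrt_sq (norm_nonneg _)]
    rw [h2, hsq, Real.sqrt_mul ha0.le, Real.sqrt_sq (norm_nonneg _)]
  rw [h1]
  have hs : 0 < Real.sqrt a := Real.sqrt_pos.mpr ha0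
  have hss : Real.sqrt a * Real.sqrt a = a := Real.mul_self_sqrt ha0.le
  have h3 : a⁻¹ * (Real.sqrt a * ‖x - c‖) = ‖x - c‖ / Real.sqrt a := by
    field_simp
    rw [sq, hss]
  rw [h3, div_le_one hs]

lemma completelySymmetric_of_rigid {m : ℕ} (hm : 0 < m) (R : E m ≃ₗᵢ[ℝ] E m) (hrig : Rigid R)
    (hfix : ∀ v, R v = v → v = 0) (A : Set (E m)) (hRA : R '' A = A) :
    IsCompletelySymmetric A := by
  refine ⟨centroid_zero_of A R hRA hfix, ?_⟩
  intro B hB hG
  apply isBall_of_rigid hm R hrig B hB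
  have h1 : R.toIsometryEquiv ∈ symGroup A := hRA
  exact hG h1

end Pool.Agent.X164.CompleteSym
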