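import Mathlib

set_option autoImplicit false

namespace Pool.Agent.X164.CylSym

open Set Metric
open scoped Pointwise

/-- Euclidean space of dimension `n`. -/
abbrev E (n : ℕ) := EuclideanSpace ℝ (Fin n)

/-- The class of nonempty compact convex sets. -/
def convexSets (n : ℕ) : Set (Set (E n)) := {K | K.Nonempty ∧ IsCompact K ∧ Convex ℝ K}

/-- The class of compact convex sets with nonempty interior. -/
def convexBodies (n : ℕ) : Set (Set (E n)) := {K | IsCompact K ∧ Convex ℝ K ∧ (interior K).Nonempty}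

/-- `K` is symmetric with respect to the reflection `x ↦ 2 (x|H) - x`. -/
def IsHSymmetric {n : ℕ} (H : Submodule ℝ (E n)) (K : Set (E n)) : Prop :=
  (fun x => (2 : ℝ) • H.starProjection x - x) '' K = K

/-- `S` maps the class `B` into its `H`-symmetric members. -/
def IsSymmetrization {n : ℕ} (H : Submodule ℝ (E n)) (B : Set (Set (E n)))
    (S : Set (E n) → Set (E n)) : Prop :=
  ∀ K ∈ B, S K ∈ B ∧ IsHSymmetric H (S K)

/-- `S` is monotonic on the class `B`. -/
def IsMonotonic {n : ℕ} (B : Set (Set (E n))) (S : Set (E n) → Set (E n)) : Prop :=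
  ∀ K ∈ B, ∀ L ∈ B, K ⊆ L → S K ⊆ S L

/-- The `H`-symmetric spherical cylinder `D_r(x) + s (B^n ∩ Hᗮ)`. -/
def cylinder {n : ℕ} (H : Submodule ℝ (E n)) (x : E n) (r s : ℝ) : Set (E n) :=
  (closedBall x r ∩ (H : Set (E n))) + s • (closedBall (0 : E n) 1 ∩ (Hᗮ : Set (E n)))

/-- `S` fixes all `H`-symmetric spherical cylinders. -/
def FixesCylinders {n : ℕ} (H : Submodule ℝ (E n)) (S : Set (E n) → Set (E n)) : Prop :=
  ∀ x ∈ H, ∀ r s : ℝ, 0 < r → 0 < s → S (cylinder H x r s) = cylinder H x r s

/-- `S` is projection invariant on the class `B`: `(S K)|H = K|H`. -/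
def IsProjectionInvariant {n : ℕ} (H : Submodule ℝ (E n)) (B : Set (Set (E n)))
    (S : Set (E n) → Set (E n)) : Prop :=
  ∀ K ∈ B, H.starProjection '' (S K) = H.starProjection '' K

lemma mem_cylinder {n : ℕ} (H : Submodule ℝ (E n)) (x : E n) (r s : ℝ) (hs : 0 < s)
    (p : E n) : p ∈ cylinder H x r s ↔
      ‖H.starProjection p - x‖ ≤ r ∧ ‖p - H.starProjection p‖ ≤ s := by
  unfold cylinder
  rw [Set.mem_add]
  constructor
  · rintro ⟨a, ⟨ha, haH⟩, b, hb, rfl⟩
    rw [Set.mem_smul_set] at hb
    obtain ⟨c, ⟨hc, hcH⟩, rfl⟩ := hb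
    have h1 : H.starProjection (a + s • c) = a := by
      rw [map_add, map_smul, Submodule.starProjection_eq_self_iff.mpr haH,
        Submodule.starProjection_apply_eq_zero_iff _ |>.mpr hcH]
      simp
    rw [h1]
    refine ⟨by simpa [dist_eq_norm] using ha, ?_⟩
    rw [add_sub_cancel_left, norm_smul, Real.norm_eq_abs, abs_of_pos hs]
    have : ‖c‖ ≤ 1 := by simpa using hc
    nlinarith
  · rintro ⟨h1, h2⟩
    refine ⟨H.starProjection p, ⟨by simpa [dist_eq_norm] using h1, ?_⟩,
      p - H.starProjection p, ?_, by abel⟩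
    · exact Submodule.starProjection_apply_mem _ _
    · rw [Set.mem_smul_set]
      refine ⟨s⁻¹ • (p - H.starProjection p), ⟨?_, ?_⟩, ?_⟩
      · rw [mem_closedBall_zero_iff, norm_smul, Real.norm_eq_abs, abs_of_pos (inv_pos.mpr hs)]
        rw [inv_mul_le_iff₀ hs]
        simpa using h2
      · exact Hᗮ.smul_mem _ (Submodule.sub_starProjection_mem_orthogonal _)
      · rw [smul_smul, mul_inv_cancel₀ hs.ne', one_smul]

lemma cylinder_compact {n : ℕ} (H : Submodule ℝ (E n)) (x : E n) (r s : ℝ) :
    IsCompact (cylinder H x r s) := by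
  unfold cylinder
  apply IsCompact.add
  · exact (isCompact_closedBall _ _).inter_right H.closed_of_finiteDimensional
  · apply IsCompact.smul
    exact (isCompact_closedBall _ _).inter_right Hᗮ.closed_of_finiteDimensional

lemma cylinder_convex {n : ℕ} (H : Submodule ℝ (E n)) (x : E n) (r s : ℝ) :
    Convex ℝ (cylinder H x r s) := by
  unfold cylinder
  apply Convex.add
  · exact (convex_closedBall _ _).inter H.convex
  · apply Convex.smul
    exact (convex_closedBall _ _).inter Hᗮ.convex

lemma cylinder_interior {n : ℕ} (H : Submodule ℝ (E n)) (x : E n) (hx : x ∈ H) (r s : ℝ)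
    (hr : 0 < r) (hs : 0 < s) : (interior (cylinder H x r s)).Nonempty := by
  refine ⟨x, mem_interior.mpr ⟨ball x (min r s), ?_, isOpen_ball, mem_ball_self (lt_min hr hs)⟩⟩
  intro p hp
  rw [mem_cylinder H x r s hs]
  rw [mem_ball, dist_eq_norm] at hp
  have hP : H.starProjection x = x := Submodule.starProjection_eq_self_iff.mpr hx
  have h1 : H.starProjection p - x = H.starProjection (p - x) := by rw [map_sub, hP]
  have h2 : p - H.starProjection p = Hᗮ.starProjection (p - x) := by
    rw [Submodule.starProjection_orthogonal']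
    simp [hP]
  constructor
  · rw [h1]
    exact (Submodule.norm_starProjection_apply_le _ _).trans (hp.le.trans (min_le_left _ _))
  · rw [h2]
    exact (Submodule.norm_starProjection_apply_le _ _).trans (hp.le.trans (min_le_right _ _))

lemma cylinder_mem {n : ℕ} (H : Submodule ℝ (E n)) (B : Set (Set (E n)))
    (hB : B = convexSets n ∨ B = convexBodies n) (x : E n) (hx : x ∈ H) (r s : ℝ)
    (hr : 0 < r) (hs : 0 < s) : cylinder H x r s ∈ B := by
  have h := cylinder_interior H x hx r s hr hs
  rcases hB with rfl | rfl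
  · exact ⟨h.mono interior_subset, cylinder_compact H x r s, cylinder_convex H x r s⟩
  · exact ⟨cylinder_compact H x r s, cylinder_convex H x r s, h⟩

lemma class_basic {n : ℕ} (B : Set (Set (E n))) (hB : B = convexSets n ∨ B = convexBodies n)
    {K : Set (E n)} (hK : K ∈ B) : K.Nonempty ∧ IsCompact K ∧ Convex ℝ K := by
  rcases hB with rfl | rfl
  · exact hK
  · exact ⟨hK.2.2.mono interior_subset, hK.1, hK.2.1⟩

/-- The localization step: if `K|H` lies in a ball centred in `H`, so does `(S K)|H`. -/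
lemma proj_subset_ball {n : ℕ} (H : Submodule ℝ (E n)) (B : Set (Set (E n)))
    (hB : B = convexSets n ∨ B = convexBodies n) (S : Set (E n) → Set (E n))
    (hmon : IsMonotonic B S) (hfix : FixesCylinders H S)
    {K : Set (E n)} (hK : K ∈ B) (x : E n) (hx : x ∈ H) (r : ℝ) (hr : 0 < r)
    (hKr : ∀ p ∈ K, ‖H.starProjection p - x‖ ≤ r) :
    ∀ p ∈ S K, ‖H.starProjection p - x‖ ≤ r := by
  obtain ⟨-, hKc, -⟩ := class_basic B hB hK
  obtain ⟨R, hR0, hR⟩ := hKc.isBounded.exists_pos_norm_le
  have hsub : K ⊆ cylinder H x r R := by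
    intro p hp
    rw [mem_cylinder H x r R hR0]
    refine ⟨hKr p hp, ?_⟩
    have h2 : p - H.starProjection p = Hᗮ.starProjection p := by
      rw [Submodule.starProjection_orthogonal']
      simp
    rw [h2]
    exact (Submodule.norm_starProjection_apply_le _ _).trans (hR p hp)
  have h1 := hmon K hK _ (cylinder_mem H B hB x hx r R hr hR0) hsub
  rw [hfix x hx r R hr hR0] at h1
  intro p hp
  exact ((mem_cylinder H x r R hR0 p).mp (h1 hp)).1

lemma proj_subset {n : ℕ} (H : Submodule ℝ (E n)) (B : Set (Set (E n)))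
    (hB : B = convexSets n ∨ B = convexBodies n) (S : Set (E n) → Set (E n))
    (hmon : IsMonotonic B S) (hfix : FixesCylinders H S)
    {K : Set (E n)} (hK : K ∈ B) :
    H.starProjection '' (S K) ⊆ H.starProjection '' K := by
  obtain ⟨hKn, hKc, hKx⟩ := class_basic B hB hK
  rintro z ⟨q, hq, rfl⟩
  by_contra hz
  set z := H.starProjection q with hzdef
  set C := H.starProjection '' K with hC
  have hCc : IsCompact C := hKc.image (by fun_prop)
  have hCx : Convex ℝ C := hKx.linear_image (H.starProjection : E n →ₗ[ℝ] E n)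
  have hCn : C.Nonempty := hKn.image _
  obtain ⟨c, hcC, hc⟩ := exists_norm_eq_iInf_of_complete_convex hCn hCc.isComplete hCx z
  rw [norm_eq_iInf_iff_real_inner_le_zero hCx hcC] at hc
  have hzH : z ∈ H := Submodule.starProjection_apply_mem _ _
  have hCH : ∀ w ∈ C, w ∈ H := by
    rintro w ⟨p, -, rfl⟩
    exact Submodule.starProjection_apply_mem _ _
  set u := z - c with hu
  have hu0 : u ≠ 0 := by
    intro h
    apply hz
    have : z = c := sub_eq_zero.mp h
    rw [this]
    exact hcC
  have huH : u ∈ H := H.sub_mem hzH (hCH c hcC)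
  have hun : 0 < ‖u‖ := norm_pos_iff.mpr hu0
  obtain ⟨R, hR0, hR⟩ := (hCc.isBounded).exists_pos_norm_le
  -- diameter bound
  set D := 2 * R with hD
  have hDb : ∀ w ∈ C, ‖w - c‖ ≤ D := by
    intro w hw
    calc ‖w - c‖ ≤ ‖w‖ + ‖c‖ := norm_sub_le _ _
      _ ≤ D := by linarith [hR w hw, hR c hcC]
  obtain ⟨M, hM⟩ := exists_nat_gt (D ^ 2 / ‖u‖ ^ 2)
  have hM2 : D ^ 2 < M * ‖u‖ ^ 2 := by
    rw [div_lt_iff₀ (by positivity)] at hM
    exact hM
  set x := c - (M : ℝ) • u with hx
  have hxH : x ∈ H := H.sub_mem (hCH c hcC) (H.smul_mem _ huH)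
  set r := Real.sqrt (D ^ 2 + M ^ 2 * ‖u‖ ^ 2) with hr
  have hr0 : 0 < r := Real.sqrt_pos.mpr (by positivity)
  have hr2 : r ^ 2 = D ^ 2 + M ^ 2 * ‖u‖ ^ 2 := Real.sq_sqrt (by positivity)
  have hball : ∀ p ∈ K, ‖H.starProjection p - x‖ ≤ r := by
    intro p hp
    have hw : H.starProjection p ∈ C := ⟨p, hp, rfl⟩
    set w := H.starProjection p with hwdef
    have h1 : w - x = (w - c) + (M : ℝ) • u := by rw [hx]; abel
    have h2 : ‖w - x‖ ^ 2 ≤ r ^ 2 := by
      rw [h1, norm_add_sq_real, inner_smul_right, norm_smul, hr2]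
      have h3 : inner ℝ (w - c) u ≤ 0 := by
        rw [real_inner_comm]
        exact hc w hw
      have h4 := hDb w hw
      have h5 : ‖(M : ℝ)‖ = M := by simp
      rw [h5]
      have h6 : (0 : ℝ) ≤ M := Nat.cast_nonneg M
      have h7 : (0 : ℝ) ≤ ‖w - c‖ := norm_nonneg _
      have h8 : (M : ℝ) * inner ℝ (w - c) u ≤ 0 := mul_nonpos_of_nonneg_of_nonpos h6 h3
      nlinarith
    exact le_of_sq_le_sq h2 hr0.le
  have h3 := proj_subset_ball H B hB S hmon hfix hK x hxH r hr0 hball q hq
  rw [← hzdef] at h3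
  have h4 : z - x = ((M : ℝ) + 1) • u := by
    rw [hx, add_smul, one_smul, hu]; abel
  rw [h4, norm_smul] at h3
  have h5 : ‖(M : ℝ) + 1‖ = M + 1 := by
    rw [Real.norm_eq_abs, abs_of_nonneg (by positivity)]
  rw [h5] at h3
  have h6 : (((M : ℝ) + 1) * ‖u‖) ^ 2 ≤ r ^ 2 := by
    apply pow_le_pow_left₀ (by positivity) h3
  rw [hr2] at h6
  nlinarith

lemma subset_proj {n : ℕ} (H : Submodule ℝ (E n)) (B : Set (Set (E n)))
    (hB : B = convexSets n ∨ B = convexBodies n) (S : Set (E n) → Set (E n))
    (hsym : IsSymmetrization H B S)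
    (hmon : IsMonotonic B S) (hfix : FixesCylinders H S)
    {K : Set (E n)} (hK : K ∈ B) :
    H.starProjection '' K ⊆ H.starProjection '' (S K) := by
  obtain ⟨hKn, hKc, hKx⟩ := class_basic B hB hK
  obtain ⟨hSn, hSc, hSx⟩ := class_basic B hB (hsym K hK).1
  rintro z ⟨p, hp, rfl⟩
  have hcl : IsClosed (H.starProjection '' (S K)) := (hSc.image (by fun_prop)).isClosed
  rw [← hcl.closure_eq, Metric.mem_closure_iff]
  intro ε hε
  have hKε : K ∩ closedBall p (ε / 2) ∈ B := by
    rcases hB with rfl | rfl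
    · exact ⟨⟨p, hp, mem_closedBall_self (by positivity)⟩, hKc.inter_right isClosed_closedBall,
        hKx.inter (convex_closedBall _ _)⟩
    · refine ⟨hKc.inter_right isClosed_closedBall, hKx.inter (convex_closedBall _ _), ?_⟩
      have h1 : p ∈ closure (interior K) := by
        rw [hKx.closure_interior_eq_closure_of_nonempty_interior hK.2.2]
        exact subset_closure hp
      obtain ⟨y, hy1, hy2⟩ := Metric.mem_closure_iff.mp h1 (ε / 2) (by positivity)
      refine ⟨y, ?_⟩
      rw [interior_inter]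
      refine ⟨hy1, ?_⟩
      apply ball_subset_interior_closedBall
      rw [mem_ball, dist_comm]
      exact hy2
  obtain ⟨⟨q, hq⟩, -, -⟩ := class_basic B hB (hsym _ hKε).1
  have h1 := proj_subset_ball H B hB S hmon hfix hKε (H.starProjection p)
    (Submodule.starProjection_apply_mem _ _) (ε / 2) (by positivity) (by
      intro w hw
      rw [← map_sub]
      refine (Submodule.norm_starProjection_apply_le _ _).trans ?_
      have := hw.2
      rwa [mem_closedBall, dist_eq_norm] at this) q hq
  refine ⟨H.starProjection q, ⟨q, hmon _ hKε K hK inter_subset_left hq, rfl⟩, ?_⟩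
  rw [dist_comm, dist_eq_norm]
  linarith

/-- Every monotonic symmetrization that fixes the `H`-symmetric spherical cylinders is
projection invariant. -/
theorem projectionInvariant {n : ℕ} (H : Submodule ℝ (E n)) (B : Set (Set (E n)))
    (hB : B = convexSets n ∨ B = convexBodies n) (S : Set (E n) → Set (E n))
    (hsym : IsSymmetrization H B S) (hmon : IsMonotonic B S) (hfix : FixesCylinders H S) :
    IsProjectionInvariant H B S := fun _ hK =>
  subset_antisymm (proj_subset H B hB S hmon hfix hK) (subset_proj H B hB S hsym hmon hfix hK)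

end Pool.Agent.X164.CylSym
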