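import Pool.Agent.X164.Sweep

set_option autoImplicit false

namespace Pool.Agent.X164.FlatBox

open Set MeasureTheory Metric Module
open scoped MeasureTheory Topology Pointwise
open Pool.Agent.X164.Steiner Pool.Agent.X164.Sweep

lemma mem_perp {n : ℕ} {u x : E n} : x ∈ (ℝ ∙ u)ᗮ ↔ inner ℝ u x = 0 :=
  Submodule.mem_orthogonal_singleton_iff_inner_right

lemma swp_perp {n : ℕ} {u v : E n} (huv : inner ℝ u v = 0) (a b : ℝ) {X : Set (E n)}
    (hX : ∀ x ∈ X, x ∈ (ℝ ∙ u)ᗮ) : ∀ x ∈ swp v a b X, x ∈ (ℝ ∙ u)ᗮ := by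
  rintro _ ⟨x, hx, s, hs, rfl⟩
  rw [mem_perp, inner_add_right, inner_smul_right, huv, mem_perp.mp (hX x hx)]
  ring

/-- the area of a flat convex set is the volume of its unit thickening -/
lemma ar_eq_vol {n : ℕ} {u : E n} (hu : ‖u‖ = 1) {X : Set (E n)} (hX : IsCompact X)
    (hXc : Convex ℝ X) (hp : ∀ x ∈ X, x ∈ (ℝ ∙ u)ᗮ) : ar u X = vol (swp u 0 1 X) := by
  rw [vol_swp u hu zero_le_one hX hXc, vol_perp u hu hX hp]
  ring

/-- area of a swept flat convex set -/
lemma ar_swp {n : ℕ} {u v : E n} (hu : ‖u‖ = 1) (hv : ‖v‖ = 1) (huv : inner ℝ u v = 0)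
    {a b : ℝ} (hab : a ≤ b) {X : Set (E n)} (hX : IsCompact X)
    (hXc : Convex ℝ X) (hp : ∀ x ∈ X, x ∈ (ℝ ∙ u)ᗮ) :
    ar u (swp v a b X) = ar u X + (b - a) * ar v (swp u 0 1 X) := by
  rw [ar_eq_vol hu (swp_compact v a b hX) (swp_convex v a b hXc) (swp_perp huv a b hp), swp_comm,
    vol_swp v hv hab (swp_compact u 0 1 hX) (swp_convex u 0 1 hXc), ← ar_eq_vol hu hX hXc hp]

lemma ar_le_vol {n : ℕ} {u : E n} (hu : ‖u‖ = 1) {X : Set (E n)} (hX : IsCompact X)
    (hXc : Convex ℝ X) {R : ℝ} (hR : X ⊆ closedBall 0 R) :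
    ar u X ≤ vol (closedBall (0 : E n) (R + 1)) := by
  have h1 := vol_swp u hu zero_le_one hX hXc
  have h2 := vol_nonneg X
  have h3 := vol_mono (swp_ball u hu (a := 0) (b := 1) (r := 1) (by norm_num) (by norm_num) hR)
    isBounded_closedBall
  linarith

/-- Upper bound for the volume of a parallel body of a flat convex set in three-space. -/
lemma upper {u v w : E 3} (hu : ‖u‖ = 1) (hv : ‖v‖ = 1) (hw : ‖w‖ = 1)
    (huv : inner ℝ u v = 0) (huw : inner ℝ u w = 0)
    (hdec : ∀ z : E 3, z = inner ℝ u z • u + (inner ℝ v z • v + inner ℝ w z • w))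
    {X : Set (E 3)} (hX : IsCompact X) (hXc : Convex ℝ X) (hp : ∀ x ∈ X, x ∈ (ℝ ∙ u)ᗮ)
    (hX2 : X ⊆ closedBall 0 2) {t : ℝ} (ht : 0 < t) (ht1 : t ≤ 1) :
    vol (X + closedBall 0 t) ≤
      2 * t * ar u X + 8 * t ^ 2 * vol (closedBall (0 : E 3) 6) := by
  have hab : -t ≤ t := by linarith
  have htt : |t| ≤ 1 := by rw [abs_of_pos ht]; exact ht1
  have htn : |-t| ≤ 1 := by rw [abs_neg]; exact htt
  set Y1 := swp v (-t) t X with hY1
  set Y2 := swp w (-t) t Y1 with hY2
  have c1 : IsCompact Y1 := swp_compact v _ _ hX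
  have c2 : IsCompact Y2 := swp_compact w _ _ c1
  have k1 : Convex ℝ Y1 := swp_convex v _ _ hXc
  have k2 : Convex ℝ Y2 := swp_convex w _ _ k1
  have p1 : ∀ x ∈ Y1, x ∈ (ℝ ∙ u)ᗮ := swp_perp huv _ _ hp
  have p2 : ∀ x ∈ Y2, x ∈ (ℝ ∙ u)ᗮ := swp_perp huw _ _ p1
  have b1 : Y1 ⊆ closedBall 0 (2 + 1) := swp_ball v hv htn htt hX2
  have hsub : X + closedBall 0 t ⊆ swp u (-t) t Y2 := by
    rintro _ ⟨x, hx, z, hz, rfl⟩
    have hzn : ‖z‖ ≤ t := by simpa using hz
    have hin : ∀ e : E 3, ‖e‖ = 1 → inner ℝ e z ∈ Icc (-t) t := by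
      intro e he
      have h1 := abs_real_inner_le_norm e z
      rw [he, one_mul] at h1
      exact abs_le.mp (h1.trans hzn)
    refine ⟨x + inner ℝ v z • v + inner ℝ w z • w,
      ⟨x + inner ℝ v z • v, ⟨x, hx, _, hin v hv, rfl⟩, _, hin w hw, rfl⟩, _, hin u hu, ?_⟩
    change x + z = _
    conv_lhs => rw [hdec z]
    module
  have h1 := vol_mono hsub (swp_compact u _ _ c2).isBounded
  rw [vol_swp u hu hab c2 k2, vol_perp u hu c2 p2, ar_swp hu hw huw hab c1 k1 p1,
    ar_swp hu hv huv hab hX hXc hp] at h1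
  have e1 : ar w (swp u 0 1 Y1) ≤ vol (closedBall (0 : E 3) 6) := by
    have h2 := ar_le_vol hw (swp_compact u 0 1 c1) (swp_convex u 0 1 k1)
      (R := 5) ((swp_ball u hu (a := 0) (b := 1) (r := 1) (by norm_num) (by norm_num) b1).trans
        (closedBall_subset_closedBall (by norm_num)))
    norm_num at h2
    exact h2
  have e2 : ar v (swp u 0 1 X) ≤ vol (closedBall (0 : E 3) 6) := by
    have h2 := ar_le_vol hv (swp_compact u 0 1 hX) (swp_convex u 0 1 hXc)
      (R := 5) ((swp_ball u hu (a := 0) (b := 1) (r := 1) (by norm_num) (by norm_num) hX2).trans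
        (closedBall_subset_closedBall (by norm_num)))
    norm_num at h2
    exact h2
  have ht2 : 0 < t ^ 2 := by positivity
  nlinarith

lemma volE_zero_of_arE {n : ℕ} {v : E n} (hv : ‖v‖ = 1) {Z : Set (E n)} (hZ : IsCompact Z)
    (h : arE v Z = 0) : volume Z = 0 := by
  rw [fubini v hv hZ.measurableSet, lintegral_eq_zero_iff' ?_]
  · have h1 : {y : (ℝ ∙ v)ᗮ | (y : E n) ∈ (ℝ ∙ v)ᗮ.starProjection '' Z}ᶜ ∈ ae volume :=
      compl_mem_ae_iff.mpr h
    filter_upwards [h1] with y hy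
    have h2 : {t : ℝ | (y : E n) + t • v ∈ Z} = ∅ := by
      rw [← not_nonempty_iff_eq_empty, ← fibre_nonempty_iff v hv Z y]
      exact hy
    rw [h2]; simp
  · -- measurability of the fibre measure
    have hus : UpperSemicontinuous (len v Z) := len_usc v hv hZ
    have h3 : (fun y : (ℝ ∙ v)ᗮ => volume {t : ℝ | (y : E n) + t • v ∈ Z}) =
        fun y : (ℝ ∙ v)ᗮ => ENNReal.ofReal (len v Z y) := by
      funext y
      unfold len
      rw [ENNReal.ofReal_toReal (fib_finite v hv hZ.isBounded _)]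
    rw [h3]
    exact ((hus.measurable.comp measurable_subtype_coe).ennreal_ofReal).aemeasurable

/-- Lower bound for the volume of a parallel body of a flat convex set in three-space. -/
lemma lower {u v : E 3} (hu : ‖u‖ = 1) (hv : ‖v‖ = 1) (huv : inner ℝ u v = 0)
    {X : Set (E 3)} (hX : IsCompact X) (hXc : Convex ℝ X) (hp : ∀ x ∈ X, x ∈ (ℝ ∙ u)ᗮ)
    (hpos : 0 < ar u X) :
    ∃ β : ℝ, 0 < β ∧ ∀ t : ℝ, 0 < t →
      2 * t * ar u X + t ^ 2 * β ≤ vol (X + closedBall 0 t) := by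
  refine ⟨ar v (swp u 0 1 X), ?_, fun t ht => ?_⟩
  · rcases (ar_nonneg v (swp u 0 1 X)).eq_or_lt with h | h
    · exfalso
      have h1 : arE v (swp u 0 1 X) = 0 := by
        have h2 := arE_finite v hv (swp_compact u 0 1 hX).isBounded
        unfold ar at h
        rcases (ENNReal.toReal_eq_zero_iff _).mp h.symm with h3 | h3
        · exact h3
        · exact absurd h3 h2
      have h2 := volE_zero_of_arE hv (swp_compact u 0 1 hX) h1
      rw [ar_eq_vol hu hX hXc hp] at hpos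
      unfold vol at hpos
      rw [h2] at hpos
      simp at hpos
    · exact h
  · have hab : -t ≤ t := by linarith
    have hab2 : -(t / 2) ≤ t / 2 := by linarith
    set A1 := swp u (-t) t X with hA1
    set Y := swp v (-(t / 2)) (t / 2) X with hY
    set A2 := swp u (-(t / 2)) (t / 2) Y with hA2
    have cY : IsCompact Y := swp_compact v _ _ hX
    have kY : Convex ℝ Y := swp_convex v _ _ hXc
    have pY : ∀ x ∈ Y, x ∈ (ℝ ∙ u)ᗮ := swp_perp huv _ _ hp
    have c1 : IsCompact A1 := swp_compact u _ _ hX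
    have c2 : IsCompact A2 := swp_compact u _ _ cY
    have s1 : A1 ⊆ X + closedBall 0 t := by
      rintro _ ⟨x, hx, s, hs, rfl⟩
      refine ⟨x, hx, s • u, ?_, rfl⟩
      rw [mem_closedBall_zero_iff, norm_smul, hu, mul_one, Real.norm_eq_abs]
      exact abs_le.mpr hs
    have s2 : A2 ⊆ X + closedBall 0 t := by
      rintro _ ⟨_, ⟨x, hx, r, hr, rfl⟩, s, hs, rfl⟩
      refine ⟨x, hx, r • v + s • u, ?_, (add_assoc _ _ _).symm⟩
      rw [mem_closedBall_zero_iff]
      calc ‖r • v + s • u‖ ≤ ‖r • v‖ + ‖s • u‖ := norm_add_le _ _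
        _ = |r| + |s| := by rw [norm_smul, norm_smul, hu, hv]; simp
        _ ≤ t / 2 + t / 2 := add_le_add (abs_le.mpr hr) (abs_le.mpr hs)
        _ = t := by ring
    have s3 : A1 ∩ A2 ⊆ swp u (-(t / 2)) (t / 2) X := by
      rintro _ ⟨⟨x, hx, s, hs, rfl⟩, ⟨y, hy, r, hr, h⟩⟩
      have h1 : inner ℝ u (x + s • u) = s := by
        rw [inner_add_right, inner_smul_right, real_inner_self_eq_norm_sq, hu,
          mem_perp.mp (hp x hx)]; ring
      have h2 : inner ℝ u (y + r • u) = r := by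
        rw [inner_add_right, inner_smul_right, real_inner_self_eq_norm_sq, hu,
          mem_perp.mp (pY y hy)]; ring
      rw [h, h2] at h1
      refine ⟨x, hx, s, ?_, rfl⟩
      rw [← h1]; exact hr
    have hcomp : IsCompact (X + closedBall (0 : E 3) t) := hX.add (isCompact_closedBall _ _)
    have hU : vol (A1 ∪ A2) + vol (A1 ∩ A2) = vol A1 + vol A2 := by
      unfold vol
      rw [← ENNReal.toReal_add (c1.union c2).measure_lt_top.ne
        (c1.inter_right c2.isClosed).measure_lt_top.ne,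
        measure_union_add_inter _ c2.measurableSet,
        ENNReal.toReal_add c1.measure_lt_top.ne c2.measure_lt_top.ne]
    have h1 := vol_mono (union_subset s1 s2) hcomp.isBounded
    have h2 := vol_mono s3 (swp_compact u _ _ hX).isBounded
    rw [vol_swp u hu hab2 hX hXc, vol_perp u hu hX hp] at h2
    rw [hA1, hA2, vol_swp u hu hab hX hXc, vol_perp u hu hX hp, vol_swp u hu hab2 cY kY,
      vol_perp u hu cY pY, hY, ar_swp hu hv huv hab2 hX hXc hp] at hU
    nlinarith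

end Pool.Agent.X164.FlatBox
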