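import Pool.Agent.X164.FlatBox

set_option autoImplicit false

namespace Pool.Agent.X164.FlatBox2

open Set MeasureTheory Metric Module Filter
open scoped MeasureTheory Topology Pointwise
open Pool.Agent.X164.Steiner Pool.Agent.X164.Sweep Pool.Agent.X164.FlatBox

/-- A coordinate box. -/
def box (a b : Fin 3 → ℝ) : Set (E 3) := {x | ∀ i, a i ≤ x i ∧ x i ≤ b i}

lemma box_eq (a b : Fin 3 → ℝ) : box a b = (WithLp.ofLp : E 3 → Fin 3 → ℝ) ⁻¹' Icc a b := by
  ext x
  simp only [box, mem_ofPred_eq, mem_preimage, mem_Icc, Pi.le_def]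
  exact forall_and

lemma box_compact (a b : Fin 3 → ℝ) : IsCompact (box a b) := by
  rw [box_eq]
  exact (PiLp.homeomorph 2 (fun _ : Fin 3 => ℝ)).isCompact_preimage.mpr isCompact_Icc

lemma box_convex (a b : Fin 3 → ℝ) : Convex ℝ (box a b) := by
  intro x hx y hy p q hp hq hpq i
  have h1 := hx i
  have h2 := hy i
  simp only [PiLp.add_apply, PiLp.smul_apply, smul_eq_mul]
  have h3 : q = 1 - p := by linarith
  subst h3
  constructor <;> nlinarith

lemma box_vol (a b : Fin 3 → ℝ) (hab : ∀ i, a i ≤ b i) : vol (box a b) = ∏ i, (b i - a i) := by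
  unfold vol
  rw [box_eq, (PiLp.volume_preserving_ofLp (Fin 3)).measure_preimage
    measurableSet_Icc.nullMeasurableSet, Real.volume_Icc_pi, ENNReal.toReal_prod]
  apply Finset.prod_congr rfl
  intro i _
  rw [ENNReal.toReal_ofReal (by linarith [hab i])]

/-- side lengths of the flat box -/
noncomputable def side (h : ℝ) : Fin 3 → ℝ := ![1, 1, h]

/-- the flat box -/
noncomputable def K (h : ℝ) : Set (E 3) := box 0 (side h)

lemma side_pos {h : ℝ} (hh : 0 < h) (i : Fin 3) : 0 < side h i := by
  fin_cases i <;> simp [side, hh]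

lemma K_vol {h : ℝ} (hh : 0 < h) : vol (K h) = h := by
  unfold K
  rw [box_vol 0 (side h) fun i => (side_pos hh i).le]
  simp [Fin.prod_univ_three, side]

lemma K_compact (h : ℝ) : IsCompact (K h) := box_compact _ _

lemma K_convex (h : ℝ) : Convex ℝ (K h) := box_convex _ _

lemma K_interior {h : ℝ} (hh : 0 < h) : (interior (K h)).Nonempty := by
  have ho : IsOpen {x : E 3 | ∀ i, 0 < x i ∧ x i < side h i} := by
    have : {x : E 3 | ∀ i, 0 < x i ∧ x i < side h i} =
        ⋂ i, ({x : E 3 | 0 < x i} ∩ {x | x i < side h i}) := by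
      ext x; simp
    rw [this]
    exact isOpen_iInter_of_finite fun i => (isOpen_lt continuous_const (by fun_prop)).inter
      (isOpen_lt (by fun_prop) continuous_const)
  refine ⟨WithLp.toLp 2 fun i => side h i / 2, interior_maximal ?_ ho ?_⟩
  · intro x hx i
    exact ⟨(hx i).1.le, (hx i).2.le⟩
  · intro i
    have := side_pos hh i
    simp only
    constructor <;> linarith

lemma K_norm {h : ℝ} (hh1 : h ≤ 1) : K h ⊆ closedBall 0 2 := by
  intro x hx
  rw [mem_closedBall_zero_iff, EuclideanSpace.norm_eq, Real.sqrt_le_left (by norm_num)]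
  have h0 := hx 0
  have h1 := hx 1
  have h2 := hx 2
  simp [side] at h0 h1 h2
  simp [Fin.sum_univ_three]
  nlinarith

open Matrix in
/-- the linear map replacing `e_i` by `u` -/
noncomputable def repl (i : Fin 3) (u : E 3) : E 3 →ₗ[ℝ] E 3 :=
  Matrix.toLin (EuclideanSpace.basisFun (Fin 3) ℝ).toBasis (EuclideanSpace.basisFun (Fin 3) ℝ).toBasis
    ((1 : Matrix (Fin 3) (Fin 3) ℝ).updateCol i u)

lemma repl_det (i : Fin 3) (u : E 3) : LinearMap.det (repl i u) = u i := by
  unfold repl
  rw [LinearMap.det_toLin, ← Matrix.cramer_apply, Matrix.cramer_one]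
  rfl

lemma repl_apply (i : Fin 3) (u x : E 3) :
    repl i u x = x + (x i) • (u - EuclideanSpace.single i 1) := by
  ext k
  unfold repl
  rw [Matrix.toLin_apply]
  simp only [EuclideanSpace.basisFun_apply, OrthonormalBasis.coe_toBasis, PiLp.add_apply,
    PiLp.smul_apply, PiLp.sub_apply, smul_eq_mul, PiLp.single_apply]
  fin_cases i <;> fin_cases k <;>
    simp [Matrix.mulVec, dotProduct, Fin.sum_univ_three, Matrix.updateCol_apply] <;> ring

lemma ar_lower {h : ℝ} (hh : 0 < h) (hh1 : h ≤ 1) {u : E 3} (hu : ‖u‖ = 1) :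
    h / 2 ≤ ar u (K h) := by
  obtain ⟨i, hi⟩ : ∃ i, (1 / 2 : ℝ) ≤ |u i| := by
    by_contra hcon
    push Not at hcon
    have h1 : ‖u‖ ^ 2 = u 0 ^ 2 + u 1 ^ 2 + u 2 ^ 2 := by
      rw [EuclideanSpace.norm_sq_eq]; simp [Fin.sum_univ_three]
    rw [hu] at h1
    have h2 : ∀ i, u i ^ 2 ≤ 1 / 4 := by
      intro i
      rw [← sq_abs]
      have := hcon i
      have := abs_nonneg (u i)
      nlinarith
    have := h2 0
    have := h2 1
    have := h2 2
    norm_num at h1
    linarith
  -- the facet orthogonal to `e_i`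
  set b' : Fin 3 → ℝ := Function.update (side h) i 0 with hb'
  set R : Set (E 3) := box 0 b' with hR
  have hRK : R ⊆ K h := by
    intro x hx k
    have h1 := hx k
    refine ⟨h1.1, h1.2.trans ?_⟩
    rw [hb']
    by_cases hk : k = i
    · subst hk; simp; exact (side_pos hh _).le
    · rw [Function.update_of_ne hk]
  set b1 : Fin 3 → ℝ := Function.update (side h) i 1 with hb1
  have hb1pos : ∀ k, 0 ≤ b1 k := by
    intro k
    rw [hb1]
    by_cases hk : k = i
    · subst hk; simp
    · rw [Function.update_of_ne hk]; exact (side_pos hh k).le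
  have hsub : repl i u '' box 0 b1 ⊆ swp u 0 1 R := by
    rintro _ ⟨x, hx, rfl⟩
    have hxi := hx i
    rw [hb1] at hxi
    simp only [Pi.zero_apply, Function.update_self] at hxi
    refine ⟨x - x i • EuclideanSpace.single i 1, ?_, x i, hxi, ?_⟩
    · intro k
      rw [hb']
      simp only [PiLp.sub_apply, PiLp.smul_apply, smul_eq_mul, PiLp.single_apply, Pi.zero_apply]
      by_cases hk : k = i
      · subst hk; simp
      · rw [Function.update_of_ne hk]
        have h1 := hx k
        rw [hb1, Function.update_of_ne hk] at h1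
        simp [hk]
        simpa using h1
    · rw [repl_apply]
      module
  have hvol1 : vol (repl i u '' box 0 b1) = |u i| * vol (box 0 b1) := by
    unfold vol
    rw [Measure.addHaar_image_linearMap, repl_det, ENNReal.toReal_mul,
      ENNReal.toReal_ofReal (abs_nonneg _)]
  have hvol2 : h ≤ vol (box 0 b1) := by
    rw [box_vol 0 b1 hb1pos]
    simp only [Pi.zero_apply, sub_zero, Fin.prod_univ_three, hb1]
    fin_cases i <;> simp [side, Function.update] <;> linarith
  have hR0 : vol R = 0 := by
    apply vol_perp (EuclideanSpace.single i 1) (by simp) (box_compact _ _)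
    intro x hx
    rw [mem_perp]
    have h1 := hx i
    rw [hb'] at h1
    simp only [Pi.zero_apply, Function.update_self] at h1
    simp [EuclideanSpace.inner_single_left]
    linarith
  have h1 := vol_swp u hu zero_le_one (box_compact 0 b') (box_convex 0 b')
  rw [← hR, hR0] at h1
  have h2 := vol_mono hsub (swp_compact u 0 1 (box_compact 0 b')).isBounded
  rw [hvol1] at h2
  have h3 := ar_mono u hu hRK (K_compact h).isBounded
  nlinarith

end Pool.Agent.X164.FlatBox2
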