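import Pool.Agent.X164.CompleteSym

set_option autoImplicit false

namespace Pool.Agent.X164.Rot2

open Set Metric MeasureTheory
open Pool.Agent.X164.SupportBody
open Pool.Agent.X164.CompleteSym

/-- rotation of the plane with matrix entries `c`, `s`. -/
noncomputable def rot (c s : ℝ) (h : c ^ 2 + s ^ 2 = 1) : E 2 ≃ₗᵢ[ℝ] E 2 where
  toFun x := WithLp.toLp 2 ![c * x 0 - s * x 1, s * x 0 + c * x 1]
  invFun x := WithLp.toLp 2 ![c * x 0 + s * x 1, -s * x 0 + c * x 1]
  map_add' x y := by
    ext i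
    fin_cases i <;> simp <;> ring
  map_smul' a x := by
    ext i
    fin_cases i <;> simp <;> ring
  left_inv x := by
    ext i
    fin_cases i
    · simp
      linear_combination (x 0) * h
    · simp
      linear_combination (x 1) * h
  right_inv x := by
    ext i
    fin_cases i
    · simp
      linear_combination (x 0) * h
    · simp
      linear_combination (x 1) * h
  norm_map' x := by
    simp [EuclideanSpace.norm_eq, Fin.sum_univ_two]
    congr 1
    linear_combination (x 0 ^ 2 + x 1 ^ 2) * h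

lemma rot_apply_zero (c s : ℝ) (h : c ^ 2 + s ^ 2 = 1) (x : E 2) :
    (rot c s h x) 0 = c * x 0 - s * x 1 := rfl

lemma rot_apply_one (c s : ℝ) (h : c ^ 2 + s ^ 2 = 1) (x : E 2) :
    (rot c s h x) 1 = s * x 0 + c * x 1 := rfl

lemma rot_fix (c s : ℝ) (h : c ^ 2 + s ^ 2 = 1) (hs : s ≠ 0) (v : E 2) (hv : rot c s h v = v) :
    v = 0 := by
  have h0 : c * v 0 - s * v 1 = v 0 := by rw [← rot_apply_zero c s h v, hv]
  have h1 : s * v 0 + c * v 1 = v 1 := by rw [← rot_apply_one c s h v, hv]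
  have h2 : s * (v 0 ^ 2 + v 1 ^ 2) = 0 := by
    linear_combination v 0 * h1 - v 1 * h0
  have h3 : v 0 ^ 2 + v 1 ^ 2 = 0 := by
    rcases mul_eq_zero.mp h2 with h | h
    · exact absurd h hs
    · exact h
  ext i
  fin_cases i
  · simp; nlinarith
  · simp; nlinarith

lemma norm_sq_linear (T : E 2 →ₗ[ℝ] E 2) (y : E 2) :
    ‖T y‖ ^ 2 = (y 0) ^ 2 * ‖T (EuclideanSpace.single 0 1)‖ ^ 2 +
      2 * (y 0 * y 1) * inner ℝ (T (EuclideanSpace.single 0 1)) (T (EuclideanSpace.single 1 1)) +
      (y 1) ^ 2 * ‖T (EuclideanSpace.single 1 1)‖ ^ 2 := by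
  have hy : y = y 0 • EuclideanSpace.single 0 (1 : ℝ) + y 1 • EuclideanSpace.single 1 (1 : ℝ) := by
    ext i
    fin_cases i <;> simp
  conv_lhs => rw [hy, map_add, map_smul, map_smul, norm_add_sq_real, norm_smul, norm_smul,
    inner_smul_left, inner_smul_right]
  simp only [conj_trivial, Real.norm_eq_abs, mul_pow, sq_abs]
  ring

/-- rotations other than plus or minus the identity are rigid -/
lemma rigid_of (c s : ℝ) (h : c ^ 2 + s ^ 2 = 1) (hs : s ≠ 0) : Rigid (rot c s h) := by
  intro T hT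
  set P := ‖T (EuclideanSpace.single 0 1)‖ ^ 2 with hP
  set Q := inner ℝ (T (EuclideanSpace.single 0 1)) (T (EuclideanSpace.single 1 1)) with hQ
  set W := ‖T (EuclideanSpace.single 1 1)‖ ^ 2 with hW
  have key : ∀ y : E 2, (c * y 0 - s * y 1) ^ 2 * P +
      2 * ((c * y 0 - s * y 1) * (s * y 0 + c * y 1)) * Q + (s * y 0 + c * y 1) ^ 2 * W =
      (y 0) ^ 2 * P + 2 * (y 0 * y 1) * Q + (y 1) ^ 2 * W := by
    intro y
    have h1 := norm_sq_linear T (rot c s h y)
    rw [hT, norm_sq_linear T y, rot_apply_zero, rot_apply_one] at h1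
    linarith
  have k0 := key (EuclideanSpace.single 0 1)
  have k1 := key (EuclideanSpace.single 0 1 + EuclideanSpace.single 1 1)
  simp at k0 k1
  -- k0 : c^2 P + 2 c s Q + s^2 W = P
  have e1 : s * (s * (W - P) + 2 * c * Q) = 0 := by linear_combination k0 - P * h
  have e2 : s * (W - P) + 2 * c * Q = 0 := by
    rcases mul_eq_zero.mp e1 with h' | h'
    · exact absurd h' hs
    · exact h'
  have e3 : s * (c * (W - P) - 2 * s * Q) = 0 := by
    linear_combination (1 / 2) * (k1 - (P + 2 * Q + W) * h)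
  have e4 : c * (W - P) - 2 * s * Q = 0 := by
    rcases mul_eq_zero.mp e3 with h' | h'
    · exact absurd h' hs
    · exact h'
  have hWP : W = P := by linear_combination s * e2 + c * e4 - (W - P) * h
  have hQ0 : Q = 0 := by linear_combination (1 / 2) * (c * e2 - s * e4) - Q * h
  refine ⟨P, fun y => ?_⟩
  rw [norm_sq_linear T y, ← hP, ← hQ, ← hW, hWP, hQ0, EuclideanSpace.norm_sq_eq]
  simp [Fin.sum_univ_two]
  ring

end Pool.Agent.X164.Rot2
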