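import Mathlib

set_option autoImplicit false

namespace Pool.Agent.X164.Steiner

open Set MeasureTheory Metric Module
open scoped MeasureTheory Topology

/-- Euclidean space of dimension `n`. -/
abbrev E (n : ℕ) := EuclideanSpace ℝ (Fin n)

/-- The fibre `{t : x + t u ∈ A}`. -/
def fib {n : ℕ} (u : E n) (A : Set (E n)) (x : E n) : Set ℝ := {t | x + t • u ∈ A}

/-- The one-dimensional measure of the fibre of `A` over `x` in direction `u`. -/
noncomputable def len {n : ℕ} (u : E n) (A : Set (E n)) (x : E n) : ℝ :=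
  (volume {t : ℝ | x + t • u ∈ A}).toReal

/-- The Steiner symmetrization of `A` in direction `u`:
all points `x' + t u` with `x'` in the projection of `A` onto `uᗮ` and `|t| ≤ len / 2`. -/
def steiner {n : ℕ} (u : E n) (A : Set (E n)) : Set (E n) :=
  {x | ∃ x' ∈ (ℝ ∙ u)ᗮ.starProjection '' A, ∃ t : ℝ, |t| ≤ len u A x' / 2 ∧ x = x' + t • u}

lemma fubini {n : ℕ} (u : E n) (hu : ‖u‖ = 1) {A : Set (E n)} (hA : MeasurableSet A) :
    volume A = ∫⁻ y : (ℝ ∙ u)ᗮ, volume {t : ℝ | (y : E n) + t • u ∈ A} := by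
  have h1 := (ℝ ∙ u).measurePreserving_measurableEquivProd (0 : E n)
  have hvol : (μHE[finrank ℝ (E n)] : Measure (E n)) = volume :=
    InnerProductSpace.euclideanHausdorffMeasure_eq_volume
  rw [hvol] at h1
  have h2 := h1.symm.measure_preimage_equiv A
  rw [← h2, Measure.volume_eq_prod, Measure.prod_apply_symm
    ((((ℝ ∙ u).measurableEquivProd (0 : E n)).symm).measurable hA)]
  apply lintegral_congr
  intro y
  let φ : ℝ ≃ₗᵢ[ℝ] (ℝ ∙ u) := LinearIsometryEquiv.toSpanUnitSingleton u hu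
  have hm : MeasurableSet ((fun z => (z, y)) ⁻¹'
      (((ℝ ∙ u).measurableEquivProd (0 : E n)).symm ⁻¹' A)) :=
    measurable_prodMk_right ((((ℝ ∙ u).measurableEquivProd (0 : E n)).symm).measurable hA)
  rw [← φ.measurePreserving.measure_preimage hm.nullMeasurableSet]
  congr 1
  ext t
  simp only [mem_preimage, Submodule.measurableEquivProd_symm_apply, mem_ofPred_eq, φ,
    LinearIsometryEquiv.toSpanUnitSingleton_apply, vadd_eq_add, add_zero]
  rw [add_comm]

lemma len_mono {n : ℕ} (u : E n) (hu : ‖u‖ = 1) {A B : Set (E n)} (h : A ⊆ B)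
    (hB : Bornology.IsBounded B) (x : E n) : len u A x ≤ len u B x := by
  unfold len
  apply ENNReal.toReal_mono
  · -- bounded fibre
    obtain ⟨R, hR⟩ := hB.exists_norm_le
    apply ne_of_lt
    calc volume {t : ℝ | x + t • u ∈ B} ≤ volume (Icc (-(R + ‖x‖)) (R + ‖x‖)) := by
          apply measure_mono
          intro t ht
          have h1 := hR _ ht
          have h2 : ‖t • u‖ ≤ R + ‖x‖ := by
            calc ‖t • u‖ = ‖(x + t • u) - x‖ := by rw [add_sub_cancel_left]
              _ ≤ ‖x + t • u‖ + ‖x‖ := norm_sub_le _ _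
              _ ≤ R + ‖x‖ := by linarith
          rw [norm_smul, hu, mul_one, Real.norm_eq_abs] at h2
          exact ⟨(abs_le.mp h2).1, (abs_le.mp h2).2⟩
      _ < ⊤ := by rw [Real.volume_Icc]; exact ENNReal.ofReal_lt_top
  · exact measure_mono fun t ht => h ht

lemma fib_finite {n : ℕ} (u : E n) (hu : ‖u‖ = 1) {B : Set (E n)}
    (hB : Bornology.IsBounded B) (x : E n) : volume {t : ℝ | x + t • u ∈ B} ≠ ⊤ := by
  obtain ⟨R, hR⟩ := hB.exists_norm_le
  apply ne_of_lt
  calc volume {t : ℝ | x + t • u ∈ B} ≤ volume (Icc (-(R + ‖x‖)) (R + ‖x‖)) := by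
        apply measure_mono
        intro t ht
        have h1 := hR _ ht
        have h2 : ‖t • u‖ ≤ R + ‖x‖ := by
          calc ‖t • u‖ = ‖(x + t • u) - x‖ := by rw [add_sub_cancel_left]
            _ ≤ ‖x + t • u‖ + ‖x‖ := norm_sub_le _ _
            _ ≤ R + ‖x‖ := by linarith
        rw [norm_smul, hu, mul_one, Real.norm_eq_abs] at h2
        exact ⟨(abs_le.mp h2).1, (abs_le.mp h2).2⟩
    _ < ⊤ := by rw [Real.volume_Icc]; exact ENNReal.ofReal_lt_top

lemma steiner_mono {n : ℕ} (u : E n) (hu : ‖u‖ = 1) {A B : Set (E n)} (h : A ⊆ B)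
    (hB : Bornology.IsBounded B) : steiner u A ⊆ steiner u B := by
  rintro x ⟨x', hx', t, ht, rfl⟩
  exact ⟨x', image_mono h hx', t, ht.trans (by have := len_mono u hu h hB x'; linarith), rfl⟩

/-- orthogonal decomposition -/
lemma perp_norm {n : ℕ} (u : E n) (hu : ‖u‖ = 1) (x' : E n) (hx' : x' ∈ (ℝ ∙ u)ᗮ) (t : ℝ) :
    ‖x' + t • u‖ ^ 2 = ‖x'‖ ^ 2 + t ^ 2 := by
  have h1 : inner ℝ x' u = 0 := by
    rw [real_inner_comm]
    exact Submodule.mem_orthogonal_singleton_iff_inner_right.mp hx'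
  rw [norm_add_sq_real, inner_smul_right, h1, norm_smul, hu]
  simp

lemma steiner_ball {n : ℕ} (u : E n) (hu : ‖u‖ = 1) (R : ℝ) :
    steiner u (closedBall (0 : E n) R) ⊆ closedBall 0 R := by
  rintro x ⟨x', hx', t, ht, rfl⟩
  obtain ⟨y, hy, rfl⟩ := hx'
  have hR : 0 ≤ R := by
    rw [mem_closedBall_zero_iff] at hy
    exact (norm_nonneg _).trans hy
  set x' := (ℝ ∙ u)ᗮ.starProjection y with hx'
  have hx'm : x' ∈ (ℝ ∙ u)ᗮ := Submodule.starProjection_apply_mem _ _
  have hx'n : ‖x'‖ ≤ R := (Submodule.norm_starProjection_apply_le _ _).trans (by simpa using hy)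
  have hx'2 : ‖x'‖ ^ 2 ≤ R ^ 2 := pow_le_pow_left₀ (norm_nonneg _) hx'n 2
  have hfib : {t : ℝ | x' + t • u ∈ closedBall (0 : E n) R} ⊆
      Icc (-Real.sqrt (R ^ 2 - ‖x'‖ ^ 2)) (Real.sqrt (R ^ 2 - ‖x'‖ ^ 2)) := by
    intro s hs
    have h1 : ‖x' + s • u‖ ^ 2 ≤ R ^ 2 := by
      apply pow_le_pow_left₀ (norm_nonneg _)
      simpa using hs
    rw [perp_norm u hu x' hx'm] at h1
    have h2 : |s| ≤ Real.sqrt (R ^ 2 - ‖x'‖ ^ 2) := by
      apply Real.abs_le_sqrt
      linarith
    exact ⟨(abs_le.mp h2).1, (abs_le.mp h2).2⟩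
  have hlen : len u (closedBall (0 : E n) R) x' ≤ 2 * Real.sqrt (R ^ 2 - ‖x'‖ ^ 2) := by
    unfold len
    have h1 := ENNReal.toReal_mono (by rw [Real.volume_Icc]; exact ENNReal.ofReal_ne_top)
      (measure_mono (μ := volume) hfib)
    rw [Real.volume_Icc, ENNReal.toReal_ofReal (by
      have := Real.sqrt_nonneg (R ^ 2 - ‖x'‖ ^ 2); linarith)] at h1
    linarith
  have ht2 : |t| ≤ Real.sqrt (R ^ 2 - ‖x'‖ ^ 2) := by linarith
  have ht3 : t ^ 2 ≤ R ^ 2 - ‖x'‖ ^ 2 := by
    rw [← sq_abs, ← Real.sq_sqrt (by linarith : 0 ≤ R ^ 2 - ‖x'‖ ^ 2)]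
    exact pow_le_pow_left₀ (abs_nonneg _) ht2 2
  rw [mem_closedBall_zero_iff]
  apply le_of_sq_le_sq _ hR
  rw [perp_norm u hu x' hx'm]
  linarith

/-- upper semicontinuity of the fibre length -/
lemma len_usc {n : ℕ} (u : E n) (hu : ‖u‖ = 1) {A : Set (E n)} (hA : IsCompact A) :
    UpperSemicontinuous (len u A) := by
  intro x c hc
  have hfin := fib_finite u hu hA.isBounded x
  have hFcl : IsClosed {t : ℝ | x + t • u ∈ A} := hA.isClosed.preimage (by fun_prop)
  obtain ⟨R, hR⟩ := hA.isBounded.exists_norm_le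
  -- open superset of the fibre of measure < c
  have hlt : volume {t : ℝ | x + t • u ∈ A} < ENNReal.ofReal c := by
    rw [← ENNReal.ofReal_toReal hfin]
    exact (ENNReal.ofReal_lt_ofReal_iff_of_nonneg ENNReal.toReal_nonneg).mpr hc
  obtain ⟨U, hFU, hUo, hU⟩ := Set.exists_isOpen_lt_of_lt _ _ hlt
  -- compact complement
  set K : Set ℝ := Icc (-(R + ‖x‖ + 1)) (R + ‖x‖ + 1) \ U with hK
  have hKc : IsCompact K := isCompact_Icc.diff hUo
  -- tube lemma
  have hopen : IsOpen {p : E n × ℝ | p.1 + p.2 • u ∉ A} :=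
    (hA.isClosed.preimage (by fun_prop : Continuous fun p : E n × ℝ => p.1 + p.2 • u)).isOpen_compl
  have htube := generalized_tube_lemma (isCompact_singleton (x := x)) hKc hopen (by
    rintro ⟨y, t⟩ ⟨hy, ht⟩
    rw [mem_singleton_iff] at hy
    subst hy
    intro h
    exact ht.2 (hFU h))
  obtain ⟨V, W, hVo, hWo, hxV, hKW, hVW⟩ := htube
  have hxV' : V ∈ 𝓝 x := hVo.mem_nhds (hxV rfl)
  filter_upwards [hVo.mem_nhds (hxV rfl), Metric.ball_mem_nhds x one_pos] with y hyV hy1
  have hsub : {t : ℝ | y + t • u ∈ A} ⊆ U := by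
    intro t ht
    by_contra htU
    have htK : t ∈ K := by
      refine ⟨?_, htU⟩
      have h1 := hR _ ht
      have h2 : ‖t • u‖ ≤ R + ‖y‖ := by
        calc ‖t • u‖ = ‖(y + t • u) - y‖ := by rw [add_sub_cancel_left]
          _ ≤ ‖y + t • u‖ + ‖y‖ := norm_sub_le _ _
          _ ≤ R + ‖y‖ := by linarith
      have h3 : ‖y‖ ≤ ‖x‖ + 1 := by
        rw [mem_ball, dist_eq_norm] at hy1
        calc ‖y‖ = ‖x + (y - x)‖ := by rw [add_sub_cancel]
          _ ≤ ‖x‖ + ‖y - x‖ := norm_add_le _ _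
          _ ≤ ‖x‖ + 1 := by linarith
      rw [norm_smul, hu, mul_one, Real.norm_eq_abs] at h2
      have h4 := abs_le.mp h2
      exact ⟨by linarith, by linarith⟩
    exact hVW (show (y, t) ∈ V ×ˢ W from ⟨hyV, hKW htK⟩) ht
  have hc0 : 0 < c := lt_of_le_of_lt ENNReal.toReal_nonneg hc
  have h5 : volume {t : ℝ | y + t • u ∈ A} < ENNReal.ofReal c := (measure_mono hsub).trans_lt hU
  unfold len
  rw [← ENNReal.toReal_ofReal hc0.le]
  exact (ENNReal.toReal_lt_toReal (fib_finite u hu hA.isBounded y) ENNReal.ofReal_ne_top).mpr h5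

lemma mem_steiner {n : ℕ} (u : E n) (hu : ‖u‖ = 1) (A : Set (E n)) (x : E n) :
    x ∈ steiner u A ↔ (ℝ ∙ u)ᗮ.starProjection x ∈ (ℝ ∙ u)ᗮ.starProjection '' A ∧
      |inner ℝ u x| ≤ len u A ((ℝ ∙ u)ᗮ.starProjection x) / 2 := by
  have hdec : (ℝ ∙ u)ᗮ.starProjection x + (inner ℝ u x) • u = x := by
    rw [Submodule.starProjection_orthogonal']
    simp [Submodule.starProjection_unit_singleton ℝ hu]
  constructor
  · rintro ⟨x', ⟨y, hy, rfl⟩, t, ht, rfl⟩
    have hm : (ℝ ∙ u)ᗮ.starProjection y ∈ (ℝ ∙ u)ᗮ := Submodule.starProjection_apply_mem _ _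
    have h1 : (ℝ ∙ u)ᗮ.starProjection ((ℝ ∙ u)ᗮ.starProjection y + t • u) =
        (ℝ ∙ u)ᗮ.starProjection y := by
      rw [map_add, Submodule.starProjection_eq_self_iff.mpr hm, map_smul]
      have : (ℝ ∙ u)ᗮ.starProjection u = 0 := by
        rw [Submodule.starProjection_apply_eq_zero_iff, Submodule.orthogonal_orthogonal]
        exact Submodule.mem_span_singleton_self u
      rw [this, smul_zero, add_zero]
    have h2 : inner ℝ u ((ℝ ∙ u)ᗮ.starProjection y + t • u) = t := by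
      rw [inner_add_right, inner_smul_right, real_inner_self_eq_norm_sq, hu,
        Submodule.mem_orthogonal_singleton_iff_inner_right.mp hm]
      ring
    rw [h1, h2]
    exact ⟨⟨y, hy, rfl⟩, ht⟩
  · rintro ⟨h1, h2⟩
    exact ⟨_, h1, _, h2, hdec.symm⟩

lemma steiner_compact {n : ℕ} (u : E n) (hu : ‖u‖ = 1) {A : Set (E n)} (hA : IsCompact A) :
    IsCompact (steiner u A) := by
  obtain ⟨R, hR⟩ := hA.isBounded.exists_norm_le
  have hsub : steiner u A ⊆ closedBall 0 R :=
    (steiner_mono u hu (fun x hx => by simpa using hR x hx) isBounded_closedBall).trans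
      (steiner_ball u hu R)
  apply Metric.isCompact_of_isClosed_isBounded _ (isBounded_closedBall.subset hsub)
  have hset : steiner u A = ((ℝ ∙ u)ᗮ.starProjection ⁻¹' ((ℝ ∙ u)ᗮ.starProjection '' A)) ∩
      (fun x => len u A ((ℝ ∙ u)ᗮ.starProjection x) + (- (2 * |inner ℝ u x|))) ⁻¹' (Ici 0) := by
    ext x
    rw [mem_steiner u hu]
    constructor
    · rintro ⟨h1, h2⟩
      exact ⟨h1, by simp only [mem_preimage, mem_Ici]; linarith⟩
    · rintro ⟨h1, h2⟩
      simp only [mem_preimage, mem_Ici] at h2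
      exact ⟨h1, by linarith⟩
  rw [hset]
  apply IsClosed.inter
  · exact (hA.image (by fun_prop)).isClosed.preimage (by fun_prop)
  · apply UpperSemicontinuous.isClosed_preimage
    apply UpperSemicontinuous.add
    · have h1 : Continuous fun x : E n => (ℝ ∙ u)ᗮ.starProjection x := by fun_prop
      exact UpperSemicontinuous.comp (f := len u A) (g := fun x : E n => (ℝ ∙ u)ᗮ.starProjection x)
        (len_usc u hu hA) h1
    · exact (by fun_prop : Continuous fun x : E n => -(2 * |inner ℝ u x|)).upperSemicontinuous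

lemma steiner_volume {n : ℕ} (u : E n) (hu : ‖u‖ = 1) {A : Set (E n)} (hA : IsCompact A) :
    volume (steiner u A) = volume A := by
  rw [fubini u hu hA.measurableSet, fubini u hu (steiner_compact u hu hA).measurableSet]
  apply lintegral_congr
  intro y
  have hproj : ∀ t : ℝ, (ℝ ∙ u)ᗮ.starProjection ((y : E n) + t • u) = y := by
    intro t
    rw [map_add, Submodule.starProjection_eq_self_iff.mpr y.2, map_smul]
    have : (ℝ ∙ u)ᗮ.starProjection u = 0 := by
      rw [Submodule.starProjection_apply_eq_zero_iff, Submodule.orthogonal_orthogonal]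
      exact Submodule.mem_span_singleton_self u
    rw [this, smul_zero, add_zero]
  have hinner : ∀ t : ℝ, inner ℝ u ((y : E n) + t • u) = t := by
    intro t
    rw [inner_add_right, inner_smul_right, real_inner_self_eq_norm_sq, hu,
      Submodule.mem_orthogonal_singleton_iff_inner_right.mp y.2]
    ring
  by_cases hy : (y : E n) ∈ (ℝ ∙ u)ᗮ.starProjection '' A
  · have h1 : {t : ℝ | (y : E n) + t • u ∈ steiner u A} =
        Icc (-(len u A y / 2)) (len u A y / 2) := by
      ext t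
      simp only [mem_ofPred_eq]
      rw [mem_steiner u hu, hproj, hinner]
      constructor
      · rintro ⟨-, h⟩
        exact ⟨(abs_le.mp h).1, (abs_le.mp h).2⟩
      · intro h
        exact ⟨hy, abs_le.mpr ⟨h.1, h.2⟩⟩
    rw [h1, Real.volume_Icc]
    have h2 : len u A y / 2 - -(len u A y / 2) = len u A y := by ring
    rw [h2]
    unfold len
    rw [ENNReal.ofReal_toReal (fib_finite u hu hA.isBounded _)]
  · have h1 : {t : ℝ | (y : E n) + t • u ∈ steiner u A} = ∅ := by
      ext t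
      simp only [mem_ofPred_eq, mem_empty_iff_false, iff_false]
      rw [mem_steiner u hu, hproj]
      rintro ⟨h, -⟩
      exact hy h
    have h2 : {t : ℝ | (y : E n) + t • u ∈ A} = ∅ := by
      ext t
      simp only [mem_ofPred_eq, mem_empty_iff_false, iff_false]
      intro h
      exact hy ⟨_, h, hproj t⟩
    rw [h1, h2]

end Pool.Agent.X164.Steiner
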