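import Mathlib

set_option autoImplicit false

namespace Pool.Agent.X164.SupportBody

open Set Metric MeasureTheory

/-- Euclidean space of dimension `n`. -/
abbrev E (n : ℕ) := EuclideanSpace ℝ (Fin n)

/-- `h` is sublinear. -/
structure Sublinear {n : ℕ} (h : E n → ℝ) : Prop where
  smul : ∀ c : ℝ, 0 < c → ∀ y, h (c • y) = c * h y
  add_le : ∀ y z, h (y + z) ≤ h y + h z

/-- The body with support function `h`. -/
def body {n : ℕ} (h : E n → ℝ) : Set (E n) := {x | ∀ y, inner ℝ x y ≤ h y}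

lemma body_convex {n : ℕ} (h : E n → ℝ) : Convex ℝ (body h) := by
  intro x hx x' hx' a b ha hb hab y
  rw [inner_add_left, inner_smul_left, inner_smul_left]
  have h1 := hx y
  have h2 := hx' y
  simp only [conj_trivial]
  calc a * inner ℝ x y + b * inner ℝ x' y ≤ a * h y + b * h y := by
        apply add_le_add <;> apply mul_le_mul_of_nonneg_left <;> assumption
    _ = h y := by rw [← add_mul, hab, one_mul]

lemma body_closed {n : ℕ} (h : E n → ℝ) : IsClosed (body h) := by
  have : body h = ⋂ y, {x | inner ℝ x y ≤ h y} := by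
    ext x; simp [body]
  rw [this]
  exact isClosed_iInter fun y => isClosed_le (by fun_prop) continuous_const

lemma body_compact {n : ℕ} (h : E n → ℝ) (C : ℝ) (hC0 : 0 ≤ C) (hC : ∀ y, h y ≤ C * ‖y‖) :
    IsCompact (body h) := by
  apply Metric.isCompact_of_isClosed_isBounded (body_closed h)
  rw [isBounded_iff_forall_norm_le]
  refine ⟨C, fun x hx => ?_⟩
  have h1 := (hx x).trans (hC x)
  rw [real_inner_self_eq_norm_sq] at h1
  by_cases h0 : ‖x‖ = 0
  · rw [h0]; exact hC0
  · have : 0 < ‖x‖ := lt_of_le_of_ne (norm_nonneg _) (Ne.symm h0)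
    nlinarith

lemma body_interior {n : ℕ} (h : E n → ℝ) (c : ℝ) (hc : 0 < c) (hC : ∀ y, c * ‖y‖ ≤ h y) :
    (interior (body h)).Nonempty := by
  refine ⟨0, mem_interior.mpr ⟨ball 0 c, ?_, isOpen_ball, mem_ball_self hc⟩⟩
  intro x hx y
  rw [mem_ball_zero_iff] at hx
  calc inner ℝ x y ≤ ‖x‖ * ‖y‖ := real_inner_le_norm _ _
    _ ≤ c * ‖y‖ := by gcongr
    _ ≤ h y := hC y

/-- Hahn-Banach: a point below `h ∘ ι` lifts to a point of the body of `h`. -/
lemma exists_lift {m n : ℕ} (h : E n → ℝ) (hh : Sublinear h) (ι : E m →ₗᵢ[ℝ] E n) (x : E m)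
    (hx : ∀ y, inner ℝ x y ≤ h (ι y)) : ∃ k ∈ body h, ∀ y, inner ℝ k (ι y) = inner ℝ x y := by
  let eqv : E m ≃ₗ[ℝ] LinearMap.range ι.toLinearMap :=
    LinearEquiv.ofInjective ι.toLinearMap ι.injective
  let f0 : LinearMap.range ι.toLinearMap →ₗ[ℝ] ℝ :=
    (innerSL ℝ x : E m →ₗ[ℝ] ℝ).comp eqv.symm.toLinearMap
  let f : E n →ₗ.[ℝ] ℝ := ⟨LinearMap.range ι.toLinearMap, f0⟩
  obtain ⟨g, hg1, hg2⟩ := exists_extension_of_le_sublinear f h hh.smul hh.add_le (by
    rintro ⟨w, y, hy⟩
    have h1 : (⟨w, y, hy⟩ : LinearMap.range ι.toLinearMap) = eqv y := by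
      apply Subtype.ext
      simp [eqv, LinearEquiv.ofInjective_apply, ← hy]
    change f0 _ ≤ h w
    rw [h1]
    have h2 : f0 (eqv y) = inner ℝ x y := by simp [f0]
    rw [h2]
    have h3 : w = ι y := hy.symm
    rw [h3]
    exact hx y)
  -- represent g
  let k : E n := (InnerProductSpace.toDual ℝ (E n)).symm (LinearMap.toContinuousLinearMap g)
  have hk : ∀ z, inner ℝ k z = g z := fun z => by
    simp [k, InnerProductSpace.toDual_symm_apply]
  refine ⟨k, fun y => (hk y).trans_le (hg2 y), fun y => ?_⟩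
  rw [hk]
  have h1 := hg1 (eqv y)
  have h2 : f (eqv y) = inner ℝ x y := by
    change f0 (eqv y) = _
    simp [f0]
  have h3 : ((eqv y : LinearMap.range ι.toLinearMap) : E n) = ι y := by
    simp [eqv, LinearEquiv.ofInjective_apply]
  rw [h3] at h1
  rw [h1, h2]

/-- the projection of the body, in isometric coordinates -/
lemma proj_body {m n : ℕ} (h : E n → ℝ) (hh : Sublinear h) (ι : E m →ₗᵢ[ℝ] E n) :
    {x : E m | ι x ∈ (LinearMap.range ι.toLinearMap).starProjection '' body h} =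
      body (fun y => h (ι y)) := by
  ext x
  constructor
  · rintro ⟨k, hk, hkx⟩ y
    have hy : ι y ∈ LinearMap.range ι.toLinearMap := ⟨y, rfl⟩
    calc inner ℝ x y = inner ℝ (ι x) (ι y) := (ι.inner_map_map x y).symm
      _ = inner ℝ ((LinearMap.range ι.toLinearMap).starProjection k) (ι y) := by rw [hkx]
      _ = inner ℝ k (ι y) := by
          rw [Submodule.inner_starProjection_left_eq_right,
            Submodule.starProjection_eq_self_iff.mpr hy]
      _ ≤ h (ι y) := hk _
  · intro hx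
    obtain ⟨k, hk, hky⟩ := exists_lift h hh ι x hx
    refine ⟨k, hk, ?_⟩
    have hιx : ι x ∈ LinearMap.range ι.toLinearMap := ⟨x, rfl⟩
    apply Submodule.eq_starProjection_of_mem_of_inner_eq_zero hιx
    rintro _ ⟨y, rfl⟩
    rw [inner_sub_left]
    change inner ℝ k (ι y) - inner ℝ (ι x) (ι y) = 0
    rw [hky, ι.inner_map_map, sub_self]

/-- support functions are attained -/
lemma exists_attained {n : ℕ} (h : E n → ℝ) (hh : Sublinear h) (y : E n) :
    ∃ k ∈ body h, inner ℝ k y = h y := by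
  have h00 : h 0 = 0 := by
    have := hh.smul 2 (by norm_num) 0
    rw [smul_zero] at this
    linarith
  by_cases hy : y = 0
  · subst hy
    let ι : E 0 →ₗᵢ[ℝ] E n := ⟨0, fun x => by simp [Subsingleton.elim x 0]⟩
    obtain ⟨k, hk, -⟩ := exists_lift h hh ι 0 (fun z => by
      have : ι z = 0 := rfl
      rw [this, h00]; simp)
    exact ⟨k, hk, by rw [inner_zero_right, h00]⟩
  · have hyn : 0 < ‖y‖ := norm_pos_iff.mpr hy
    let ι : E 1 →ₗᵢ[ℝ] E n :=
      ⟨{ toFun := fun x => (x 0 * ‖y‖⁻¹) • y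
         map_add' := fun a b => by simp [add_mul, add_smul]
         map_smul' := fun c a => by simp [mul_assoc, mul_smul] }, fun x => by
          have h1 : ‖x‖ = |x 0| := by
            rw [EuclideanSpace.norm_eq]
            simp [Real.sqrt_sq_eq_abs]
          change ‖(x 0 * ‖y‖⁻¹) • y‖ = ‖x‖
          rw [norm_smul, h1, norm_mul, norm_inv, norm_norm, mul_assoc,
            inv_mul_cancel₀ hyn.ne', mul_one, Real.norm_eq_abs]⟩
    have hι : ∀ z : E 1, ι z = (z 0 * ‖y‖⁻¹) • y := fun z => rfl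
    let x : E 1 := WithLp.toLp 2 (fun _ => h y * ‖y‖⁻¹)
    obtain ⟨k, hk, hky⟩ := exists_lift h hh ι x (fun z => by
      have h2 : inner ℝ x z = z 0 * ‖y‖⁻¹ * h y := by
        simp [x, PiLp.inner_apply]
        ring
      rw [h2, hι]
      set t := z 0 * ‖y‖⁻¹ with ht
      rcases lt_trichotomy 0 t with h3 | h3 | h3
      · rw [hh.smul t h3]
      · rw [← h3]; simp [h00]
      · have h4 := hh.add_le (t • y) ((-t) • y)
        rw [neg_smul, add_neg_cancel, h00, ← neg_smul, hh.smul (-t) (by linarith)] at h4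
        linarith)
    refine ⟨k, hk, ?_⟩
    have h5 := hky (WithLp.toLp 2 (fun _ => ‖y‖))
    rw [hι] at h5
    have h6 : (‖y‖ * ‖y‖⁻¹) • y = y := by rw [mul_inv_cancel₀ hyn.ne', one_smul]
    change inner ℝ k ((‖y‖ * ‖y‖⁻¹) • y) = _ at h5
    rw [h6] at h5
    rw [h5]
    simp [x, PiLp.inner_apply]
    field_simp

end Pool.Agent.X164.SupportBody
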