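import Pool.Agent.X164.Steiner

set_option autoImplicit false

namespace Pool.Agent.X164.Sweep

open Set MeasureTheory Metric Module
open scoped MeasureTheory Topology Pointwise
open Pool.Agent.X164.Steiner

/-- `X + [a,b] u` -/
def swp {n : ℕ} (u : E n) (a b : ℝ) (X : Set (E n)) : Set (E n) :=
  {z | ∃ x ∈ X, ∃ s ∈ Icc a b, z = x + s • u}

/-- projection area, as an extended real -/
noncomputable def arE {n : ℕ} (u : E n) (X : Set (E n)) : ENNReal :=
  volume {y : (ℝ ∙ u)ᗮ | (y : E n) ∈ (ℝ ∙ u)ᗮ.starProjection '' X}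

/-- projection area -/
noncomputable def ar {n : ℕ} (u : E n) (X : Set (E n)) : ℝ := (arE u X).toReal

lemma swp_eq_image {n : ℕ} (u : E n) (a b : ℝ) (X : Set (E n)) :
    swp u a b X = (fun p : E n × ℝ => p.1 + p.2 • u) '' (X ×ˢ Icc a b) := by
  ext z
  constructor
  · rintro ⟨x, hx, s, hs, rfl⟩; exact ⟨(x, s), ⟨hx, hs⟩, rfl⟩
  · rintro ⟨⟨x, s⟩, ⟨hx, hs⟩, rfl⟩; exact ⟨x, hx, s, hs, rfl⟩

lemma swp_compact {n : ℕ} (u : E n) (a b : ℝ) {X : Set (E n)} (hX : IsCompact X) :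
    IsCompact (swp u a b X) := by
  rw [swp_eq_image]
  exact (hX.prod isCompact_Icc).image (by fun_prop)

lemma swp_convex {n : ℕ} (u : E n) (a b : ℝ) {X : Set (E n)} (hX : Convex ℝ X) :
    Convex ℝ (swp u a b X) := by
  rintro _ ⟨x, hx, s, hs, rfl⟩ _ ⟨y, hy, t, ht, rfl⟩ p q hp hq hpq
  refine ⟨p • x + q • y, hX hx hy hp hq hpq, p * s + q * t,
    convex_Icc a b hs ht hp hq hpq, ?_⟩
  simp only [smul_add, add_smul, smul_smul]
  abel

lemma swp_nonempty {n : ℕ} (u : E n) {a b : ℝ} (hab : a ≤ b) {X : Set (E n)} (hX : X.Nonempty) :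
    (swp u a b X).Nonempty := by
  obtain ⟨x, hx⟩ := hX
  exact ⟨x + a • u, x, hx, a, left_mem_Icc.mpr hab, rfl⟩

lemma swp_mono {n : ℕ} (u : E n) (a b : ℝ) {X Y : Set (E n)} (h : X ⊆ Y) :
    swp u a b X ⊆ swp u a b Y := by
  rintro _ ⟨x, hx, s, hs, rfl⟩
  exact ⟨x, h hx, s, hs, rfl⟩

lemma swp_comm {n : ℕ} (u v : E n) (a b c d : ℝ) (X : Set (E n)) :
    swp u a b (swp v c d X) = swp v c d (swp u a b X) := by
  ext z
  constructor
  · rintro ⟨_, ⟨x, hx, s, hs, rfl⟩, t, ht, rfl⟩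
    exact ⟨_, ⟨x, hx, t, ht, rfl⟩, s, hs, by abel⟩
  · rintro ⟨_, ⟨x, hx, s, hs, rfl⟩, t, ht, rfl⟩
    exact ⟨_, ⟨x, hx, t, ht, rfl⟩, s, hs, by abel⟩

lemma swp_ball {n : ℕ} (u : E n) (hu : ‖u‖ = 1) {a b R r : ℝ} (ha : |a| ≤ r) (hb : |b| ≤ r)
    {X : Set (E n)} (hX : X ⊆ closedBall 0 R) : swp u a b X ⊆ closedBall 0 (R + r) := by
  rintro _ ⟨x, hx, s, hs, rfl⟩
  have h1 : ‖x‖ ≤ R := by simpa using hX hx
  have h2 : |s| ≤ r := by
    rw [abs_le]
    exact ⟨(abs_le.mp ha).1.trans hs.1, hs.2.trans (abs_le.mp hb).2⟩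
  rw [mem_closedBall_zero_iff]
  calc ‖x + s • u‖ ≤ ‖x‖ + ‖s • u‖ := norm_add_le _ _
    _ ≤ R + r := by rw [norm_smul, hu, mul_one, Real.norm_eq_abs]; linarith

lemma proj_perp {n : ℕ} (u : E n) (y : (ℝ ∙ u)ᗮ) (t : ℝ) :
    (ℝ ∙ u)ᗮ.starProjection ((y : E n) + t • u) = y := by
  rw [map_add, Submodule.starProjection_eq_self_iff.mpr y.2, map_smul]
  have : (ℝ ∙ u)ᗮ.starProjection u = 0 := by
    rw [Submodule.starProjection_apply_eq_zero_iff, Submodule.orthogonal_orthogonal]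
    exact Submodule.mem_span_singleton_self u
  rw [this, smul_zero, add_zero]

lemma proj_add {n : ℕ} (u : E n) (y : E n) (t : ℝ) :
    (ℝ ∙ u)ᗮ.starProjection (y + t • u) = (ℝ ∙ u)ᗮ.starProjection y := by
  rw [map_add, map_smul]
  have : (ℝ ∙ u)ᗮ.starProjection u = 0 := by
    rw [Submodule.starProjection_apply_eq_zero_iff, Submodule.orthogonal_orthogonal]
    exact Submodule.mem_span_singleton_self u
  rw [this, smul_zero, add_zero]

lemma dec {n : ℕ} (u : E n) (hu : ‖u‖ = 1) (x : E n) :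
    (ℝ ∙ u)ᗮ.starProjection x + (inner ℝ u x) • u = x := by
  rw [Submodule.starProjection_orthogonal']
  simp [Submodule.starProjection_unit_singleton ℝ hu]

lemma fibre_nonempty_iff {n : ℕ} (u : E n) (hu : ‖u‖ = 1) (X : Set (E n)) (y : (ℝ ∙ u)ᗮ) :
    (y : E n) ∈ (ℝ ∙ u)ᗮ.starProjection '' X ↔ {t : ℝ | (y : E n) + t • u ∈ X}.Nonempty := by
  constructor
  · rintro ⟨x, hx, hxy⟩
    refine ⟨inner ℝ u x, ?_⟩
    change (y : E n) + (inner ℝ u x) • u ∈ X
    rw [← hxy, dec u hu]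
    exact hx
  · rintro ⟨t, ht⟩
    exact ⟨_, ht, proj_perp u y t⟩

/-- the fibre of the swept set has length increased by `b - a` -/
lemma fibre_swp {n : ℕ} (u : E n) (hu : ‖u‖ = 1) {a b : ℝ} (hab : a ≤ b) {X : Set (E n)}
    (hX : IsCompact X) (hXc : Convex ℝ X) (y : (ℝ ∙ u)ᗮ) :
    volume {t : ℝ | (y : E n) + t • u ∈ swp u a b X} =
      volume {t : ℝ | (y : E n) + t • u ∈ X} + ENNReal.ofReal (b - a) *
        indicator {y : (ℝ ∙ u)ᗮ | (y : E n) ∈ (ℝ ∙ u)ᗮ.starProjection '' X} 1 y := by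
  have hu0 : u ≠ 0 := by intro h; rw [h, norm_zero] at hu; exact zero_ne_one hu
  set F := {t : ℝ | (y : E n) + t • u ∈ X} with hF
  have hset : {t : ℝ | (y : E n) + t • u ∈ swp u a b X} = {t | ∃ r ∈ F, ∃ s ∈ Icc a b, t = r + s} := by
    ext t
    constructor
    · rintro ⟨x, hx, s, hs, h⟩
      refine ⟨t - s, ?_, s, hs, by ring⟩
      change (y : E n) + (t - s) • u ∈ X
      have : (y : E n) + (t - s) • u = x := by
        rw [sub_smul, ← add_sub_assoc, h]; abel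
      rw [this]; exact hx
    · rintro ⟨r, hr, s, hs, rfl⟩
      exact ⟨_, hr, s, hs, by rw [add_smul]; abel⟩
  rw [hset]
  by_cases hy : (y : E n) ∈ (ℝ ∙ u)ᗮ.starProjection '' X
  · have hne : F.Nonempty := (fibre_nonempty_iff u hu X y).mp hy
    have hcl : IsClosed F := hX.isClosed.preimage (by fun_prop)
    obtain ⟨R, hR⟩ := hX.isBounded.exists_norm_le
    have hbd : ∀ t ∈ F, |t| ≤ R + ‖(y : E n)‖ := by
      intro t ht
      have h1 := hR _ ht
      have h2 : ‖t • u‖ ≤ R + ‖(y : E n)‖ := by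
        calc ‖t • u‖ = ‖((y : E n) + t • u) - y‖ := by rw [add_sub_cancel_left]
          _ ≤ ‖(y : E n) + t • u‖ + ‖(y : E n)‖ := norm_sub_le _ _
          _ ≤ R + ‖(y : E n)‖ := by linarith
      rwa [norm_smul, hu, mul_one, Real.norm_eq_abs] at h2
    have hb1 : BddBelow F := ⟨-(R + ‖(y : E n)‖), fun t ht => (abs_le.mp (hbd t ht)).1⟩
    have hb2 : BddAbove F := ⟨R + ‖(y : E n)‖, fun t ht => (abs_le.mp (hbd t ht)).2⟩
    have hconv : Convex ℝ F := by
      intro s hs t ht p q hp hq hpq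
      have h1 := hXc hs ht hp hq hpq
      change (y : E n) + (p * s + q * t) • u ∈ X
      convert h1 using 1
      have hq' : q = 1 - p := by linarith
      subst hq'
      module
    have hI : F = Icc (sInf F) (sSup F) := by
      apply Subset.antisymm
      · intro t ht; exact ⟨csInf_le hb1 ht, le_csSup hb2 ht⟩
      · exact hconv.ordConnected.out (hcl.csInf_mem hne hb1) (hcl.csSup_mem hne hb2)
    have hle : sInf F ≤ sSup F := (csInf_le hb1 hne.some_mem).trans (le_csSup hb2 hne.some_mem)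
    have hsum : {t | ∃ r ∈ F, ∃ s ∈ Icc a b, t = r + s} = Icc (sInf F + a) (sSup F + b) := by
      rw [← Icc_add_Icc hle hab, ← hI]
      ext t
      rw [Set.mem_add]
      constructor
      · rintro ⟨r, hr, s, hs, rfl⟩; exact ⟨r, hr, s, hs, rfl⟩
      · rintro ⟨r, hr, s, hs, rfl⟩; exact ⟨r, hr, s, hs, rfl⟩
    rw [hsum, Real.volume_Icc]
    have hvF : volume F = ENNReal.ofReal (sSup F - sInf F) := by
      conv_lhs => rw [hI]
      rw [Real.volume_Icc]
    rw [hvF, indicator_of_mem (show y ∈ {y : (ℝ ∙ u)ᗮ | (y : E n) ∈ (ℝ ∙ u)ᗮ.starProjection '' X}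
      from hy), Pi.one_apply, mul_one, ← ENNReal.ofReal_add (by linarith) (by linarith)]
    congr 1
    ring
  · have hempty : F = ∅ := by
      rw [← not_nonempty_iff_eq_empty, ← fibre_nonempty_iff u hu X y]
      exact hy
    rw [hempty, indicator_of_notMem (show y ∉ {y : (ℝ ∙ u)ᗮ | (y : E n) ∈
      (ℝ ∙ u)ᗮ.starProjection '' X} from hy)]
    simp

lemma projSet_measurable {n : ℕ} (u : E n) {X : Set (E n)} (hX : IsCompact X) :
    MeasurableSet {y : (ℝ ∙ u)ᗮ | (y : E n) ∈ (ℝ ∙ u)ᗮ.starProjection '' X} := by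
  have h1 : IsClosed ((ℝ ∙ u)ᗮ.starProjection '' X) := (hX.image (by fun_prop)).isClosed
  exact (h1.preimage continuous_subtype_val).measurableSet

lemma volE_swp {n : ℕ} (u : E n) (hu : ‖u‖ = 1) {a b : ℝ} (hab : a ≤ b) {X : Set (E n)}
    (hX : IsCompact X) (hXc : Convex ℝ X) :
    volume (swp u a b X) = volume X + ENNReal.ofReal (b - a) * arE u X := by
  rw [fubini u hu (swp_compact u a b hX).measurableSet, fubini u hu hX.measurableSet]
  simp only [fibre_swp u hu hab hX hXc]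
  have hm := projSet_measurable u hX
  rw [lintegral_add_right _ (Measurable.const_mul (measurable_one.indicator hm) _),
    lintegral_const_mul _ (measurable_one.indicator hm), lintegral_indicator_one hm]
  rfl

lemma arE_mono {n : ℕ} (u : E n) {X Y : Set (E n)} (h : X ⊆ Y) : arE u X ≤ arE u Y :=
  measure_mono fun _ hy => image_mono h hy

lemma arE_finite {n : ℕ} (u : E n) (_hu : ‖u‖ = 1) {X : Set (E n)}
    (hX : Bornology.IsBounded X) : arE u X ≠ ⊤ := by
  obtain ⟨R, hR⟩ := hX.exists_norm_le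
  apply ne_of_lt
  refine lt_of_le_of_lt (measure_mono (t := closedBall 0 R) ?_) measure_closedBall_lt_top
  rintro y ⟨x, hx, hxy⟩
  rw [mem_closedBall_zero_iff]
  change ‖(y : E n)‖ ≤ R
  rw [← hxy]
  exact (Submodule.norm_starProjection_apply_le _ _).trans (hR x hx)

/-- real-valued volume -/
noncomputable def vol {n : ℕ} (X : Set (E n)) : ℝ := (volume X).toReal

lemma vol_swp {n : ℕ} (u : E n) (hu : ‖u‖ = 1) {a b : ℝ} (hab : a ≤ b) {X : Set (E n)}
    (hX : IsCompact X) (hXc : Convex ℝ X) :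
    vol (swp u a b X) = vol X + (b - a) * ar u X := by
  unfold vol ar
  rw [volE_swp u hu hab hX hXc, ENNReal.toReal_add hX.measure_lt_top.ne
    (ENNReal.mul_ne_top ENNReal.ofReal_ne_top (arE_finite u hu hX.isBounded)),
    ENNReal.toReal_mul, ENNReal.toReal_ofReal (by linarith)]

lemma ar_mono {n : ℕ} (u : E n) (hu : ‖u‖ = 1) {X Y : Set (E n)} (h : X ⊆ Y)
    (hY : Bornology.IsBounded Y) : ar u X ≤ ar u Y :=
  ENNReal.toReal_mono (arE_finite u hu hY) (arE_mono u h)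

lemma ar_nonneg {n : ℕ} (u : E n) (X : Set (E n)) : 0 ≤ ar u X := ENNReal.toReal_nonneg

lemma vol_mono {n : ℕ} {X Y : Set (E n)} (h : X ⊆ Y) (hY : Bornology.IsBounded Y) :
    vol X ≤ vol Y := ENNReal.toReal_mono hY.measure_lt_top.ne (measure_mono h)

lemma vol_nonneg {n : ℕ} (X : Set (E n)) : 0 ≤ vol X := ENNReal.toReal_nonneg

/-- projection area depends only on the projection -/
lemma ar_proj {n : ℕ} (u : E n) (X : Set (E n)) :
    ar u ((ℝ ∙ u)ᗮ.starProjection '' X) = ar u X := by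
  unfold ar arE
  congr 2
  ext y
  simp only [mem_ofPred_eq]
  rw [← image_comp]
  have : (ℝ ∙ u)ᗮ.starProjection ∘ (ℝ ∙ u)ᗮ.starProjection = (ℝ ∙ u)ᗮ.starProjection := by
    funext x
    exact Submodule.starProjection_eq_self_iff.mpr (Submodule.starProjection_apply_mem _ _)
  rw [show ((ℝ ∙ u)ᗮ.starProjection : E n → E n) ∘ ((ℝ ∙ u)ᗮ.starProjection : E n → E n) =
    ((ℝ ∙ u)ᗮ.starProjection : E n → E n) from this]

/-- a set in `uᗮ` has volume zero -/
lemma vol_perp {n : ℕ} (u : E n) (hu : ‖u‖ = 1) {X : Set (E n)} (hX : IsCompact X)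
    (h : ∀ x ∈ X, x ∈ (ℝ ∙ u)ᗮ) : vol X = 0 := by
  have h1 : volume X = 0 := by
    rw [fubini u hu hX.measurableSet]
    have h2 : ∀ y : (ℝ ∙ u)ᗮ, volume {t : ℝ | (y : E n) + t • u ∈ X} = 0 := by
      intro y
      apply measure_mono_null (t := {0}) _ (by simp)
      intro t ht
      have h3 := h _ ht
      have h4 : t • u ∈ (ℝ ∙ u)ᗮ := by
        have := Submodule.sub_mem _ h3 y.2
        rwa [add_sub_cancel_left] at this
      have h5 := Submodule.mem_orthogonal_singleton_iff_inner_right.mp h4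
      rw [inner_smul_right, real_inner_self_eq_norm_sq, hu] at h5
      simpa using h5
    simp [h2]
  unfold vol
  rw [h1]; rfl

end Pool.Agent.X164.Sweep
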